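import Pool.Agent.Locked.Data
import Pool.Agent.Locked.DataJ

set_option autoImplicit false
set_option maxRecDepth 100000

namespace Pool.Agent.Locked

def X0 (j : ℕ) : Tri ℤ := Xl.getD j Tri.zero

theorem gaugeZ0 : gaugeZ P0 X0 = true := by decide +kernel

theorem rowsok0 : rows0.all (Row.ok P0 X0 18) = true := by decide +kernel

theorem hJ0 : rows0.map (Row.J P0 X0) = J0 := by decide +kernel

theorem hbas0 : rows0.map (Row.B P0 X0) = bas0 := by decide +kernel

theorem hom0 : om0.length = rows0.length := by decide +kernel

theorem hsom0 : sumAbs (comb om0 J0) = som0 := by decide +kernel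

end Pool.Agent.Locked
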