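import Pool.Agent.Locked.Check1
import Pool.Agent.Locked.DataW

set_option autoImplicit false
set_option maxRecDepth 100000

namespace Pool.Agent.Locked

theorem hOK0 : rowsOK S0 kap0 P0.ρ J0 om0 som0 bas0 0 Ws0 = true := by decide +kernel

theorem hWs0 : Ws0.length = 18 := by decide +kernel

end Pool.Agent.Locked
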