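import Pool.Agent.Locked.Topo

set_option autoImplicit false

namespace Pool.Agent.Locked

open Set

/-- the vector of `E` with given integer coordinates -/
noncomputable def vec (p : Tri ℤ) : E := !₂[(p.x : ℝ), (p.y : ℝ), (p.z : ℝ)]

noncomputable def dir (U : ℕ → Tri ℤ) (j : ℕ) : E := (‖vec (U j)‖)⁻¹ • vec (U j)

/-- the chain with edge directions `U j / |U j|` -/
noncomputable def chain (U : ℕ → Tri ℤ) (i : ℕ) : E := ∑ j ∈ Finset.range i, dir U j

theorem chain_edge (U : ℕ → Tri ℤ) (j : ℕ) : chain U (j + 1) - chain U j = dir U j := by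
  simp [chain, Finset.sum_range_succ]

theorem tri_vec (p : Tri ℤ) : tri (vec p) = p.toR := by
  simp [tri, vec, Tri.toR]

theorem norm_vec_sq (p : Tri ℤ) : ‖vec p‖ ^ 2 = Tri.dot p p := by
  rw [EuclideanSpace.norm_sq_eq, Fin.sum_univ_three]
  simp only [Real.norm_eq_abs, sq_abs]
  have e0 : vec p 0 = p.x := rfl
  have e1 : vec p 1 = p.y := rfl
  have e2 : vec p 2 = p.z := rfl
  rw [e0, e1, e2]
  simp only [Tri.dot]
  push_cast
  ring

/-- `|U|` is between `N-1` and `N+1` -/
def lenOK (N : ℤ) (p : Tri ℤ) : Bool :=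
  decide ((N - 1) ^ 2 ≤ Tri.dot p p) && decide (Tri.dot p p ≤ (N + 1) ^ 2)

theorem lenOK_norm {N : ℤ} (hN : 1 < N) {p : Tri ℤ} (h : lenOK N p = true) :
    (N : ℝ) - 1 ≤ ‖vec p‖ ∧ ‖vec p‖ ≤ N + 1 := by
  simp only [lenOK, Bool.and_eq_true, decide_eq_true_eq] at h
  obtain ⟨h1, h2⟩ := h
  have h1' : ((N : ℝ) - 1) ^ 2 ≤ (Tri.dot p p : ℤ) := by exact_mod_cast h1
  have h2' : ((Tri.dot p p : ℤ) : ℝ) ≤ ((N : ℝ) + 1) ^ 2 := by exact_mod_cast h2
  rw [← norm_vec_sq] at h1' h2'
  have hN' : (1 : ℝ) < N := by exact_mod_cast hN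
  exact ⟨le_of_sq_le_sq h1' (norm_nonneg _), le_of_sq_le_sq h2' (by linarith)⟩
where
  le_of_sq_le_sq {a b : ℝ} (h : a ^ 2 ≤ b ^ 2) (hb : 0 ≤ b) : a ≤ b := by
    by_contra hlt
    push Not at hlt
    nlinarith

theorem comp_le_norm (p : Tri ℤ) :
    |(p.x : ℝ)| ≤ ‖vec p‖ ∧ |(p.y : ℝ)| ≤ ‖vec p‖ ∧ |(p.z : ℝ)| ≤ ‖vec p‖ := by
  have h := norm_vec_sq p
  have h' : ‖vec p‖ ^ 2 = (p.x : ℝ) * p.x + p.y * p.y + p.z * p.z := by
    rw [h]; simp [Tri.dot]
  have hn := norm_nonneg (vec p)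
  refine ⟨?_, ?_, ?_⟩
  · apply abs_le_of_sq_le_sq _ hn; nlinarith [mul_self_nonneg (p.y : ℝ), mul_self_nonneg (p.z : ℝ)]
  · apply abs_le_of_sq_le_sq _ hn; nlinarith [mul_self_nonneg (p.x : ℝ), mul_self_nonneg (p.z : ℝ)]
  · apply abs_le_of_sq_le_sq _ hn; nlinarith [mul_self_nonneg (p.x : ℝ), mul_self_nonneg (p.y : ℝ)]

/-- scaled edge vectors -/
noncomputable def sedge (N : ℤ) (q : ℕ → E) (j : ℕ) : Tri ℝ := Tri.smul N (edge q j)

theorem sedge_close {N : ℤ} (hN : 1 < N) (U : ℕ → Tri ℤ) {j : ℕ} (h : lenOK N (U j) = true) :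
    (Tri.sub (sedge N (chain U) j) (U j).toR).le 1 := by
  obtain ⟨h1, h2⟩ := lenOK_norm hN h
  have hN' : (1 : ℝ) < N := by exact_mod_cast hN
  have hr : 0 < ‖vec (U j)‖ := by linarith
  obtain ⟨c1, c2, c3⟩ := comp_le_norm (U j)
  set r := ‖vec (U j)‖ with hrdef
  have key : ∀ t : ℝ, |t| ≤ r → |(N : ℝ) * (r⁻¹ * t) - t| ≤ 1 := by
    intro t ht
    have : (N : ℝ) * (r⁻¹ * t) - t = ((N - r) * t) / r := by field_simp
    rw [this, abs_div, abs_of_pos hr, div_le_one hr, abs_mul]
    calc |(N : ℝ) - r| * |t| ≤ 1 * r := mul_le_mul (abs_le.mpr ⟨by linarith, by linarith⟩) ht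
          (abs_nonneg _) zero_le_one
      _ = r := one_mul r
  have he : edge (chain U) j = Tri.smul r⁻¹ (U j).toR := by
    rw [edge, chain_edge, dir, tri_smul, tri_vec]
  simp only [sedge, he, Tri.smul, Tri.sub, Tri.toR, Tri.le]
  exact ⟨key _ c1, key _ c2, key _ c3⟩

theorem chain_unit {N : ℤ} (hN : 1 < N) (U : ℕ → Tri ℤ) (n : ℕ)
    (h : ∀ j, j < n → lenOK N (U j) = true) : Unit n (chain U) := by
  intro i hi
  obtain ⟨h1, _⟩ := lenOK_norm hN (h i hi)
  have hN' : (1 : ℝ) < N := by exact_mod_cast hN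
  have hr : 0 < ‖vec (U i)‖ := by linarith
  rw [dist_comm, dist_eq_norm, chain_edge, dir, norm_smul, norm_inv, norm_norm,
    inv_mul_cancel₀ hr.ne']

theorem abs_dot_le (δ q : Tri ℝ) (a : ℝ) (h : δ.le a) :
    |Tri.dot δ q| ≤ a * (|q.x| + |q.y| + |q.z|) := by
  obtain ⟨h1, h2, h3⟩ := h
  simp only [Tri.dot]
  calc _ ≤ |δ.x * q.x| + |δ.y * q.y| + |δ.z * q.z| :=
        (abs_add_le _ _).trans (add_le_add (abs_add_le _ _) le_rfl)
    _ = |δ.x| * |q.x| + |δ.y| * |q.y| + |δ.z| * |q.z| := by rw [abs_mul, abs_mul, abs_mul]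
    _ ≤ a * |q.x| + a * |q.y| + a * |q.z| := by
        gcongr
    _ = _ := by ring

theorem dot_close (p q p' q' : Tri ℝ) (a b : ℝ) (hp : (Tri.sub p' p).le a)
    (hq : (Tri.sub q' q).le b) :
    |Tri.dot p' q' - Tri.dot p q| ≤
      a * (|q.x| + |q.y| + |q.z|) + b * (|p.x| + |p.y| + |p.z|) + 3 * a * b := by
  have e : Tri.dot p' q' - Tri.dot p q = Tri.dot (Tri.sub p' p) q + Tri.dot (Tri.sub q' q) p +
      Tri.dot (Tri.sub p' p) (Tri.sub q' q) := by
    simp only [Tri.dot, Tri.sub]; ring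
  rw [e]
  have h1 := abs_dot_le _ q a hp
  have h2 := abs_dot_le _ p b hq
  have h3 := abs_dot_le _ (Tri.sub q' q) a hp
  have ha : 0 ≤ a := (abs_nonneg _).trans hp.1
  obtain ⟨q1, q2, q3⟩ := hq
  have h4 : a * (|(Tri.sub q' q).x| + |(Tri.sub q' q).y| + |(Tri.sub q' q).z|) ≤ a * (3 * b) :=
    mul_le_mul_of_nonneg_left (by linarith) ha
  calc _ ≤ |Tri.dot (Tri.sub p' p) q| + |Tri.dot (Tri.sub q' q) p| +
      |Tri.dot (Tri.sub p' p) (Tri.sub q' q)| :=
        (abs_add_le _ _).trans (add_le_add (abs_add_le _ _) le_rfl)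
    _ ≤ _ := by linarith

theorem cross_comp_close (p q p' q' : Tri ℝ) (a b : ℝ) (hp : (Tri.sub p' p).le a)
    (hq : (Tri.sub q' q).le b) :
    (Tri.sub (Tri.cross p' q') (Tri.cross p q)).le
      (a * (|q.x| + |q.y| + |q.z|) + b * (|p.x| + |p.y| + |p.z|) + 2 * a * b) := by
  have c1 := cross_close p q p' q' ⟨1, 0, 0⟩ a b hp hq
  have c2 := cross_close p q p' q' ⟨0, 1, 0⟩ a b hp hq
  have c3 := cross_close p q p' q' ⟨0, 0, 1⟩ a b hp hq
  simp only [Tri.dot, mul_one, mul_zero, add_zero, zero_add, abs_one, abs_zero] at c1 c2 c3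
  exact ⟨c1, c2, c3⟩

/-- check that `X j` is within 12 of the scaled invariant coordinates -/
def initOK (P : Par) (U X : ℕ → Tri ℤ) (j : ℕ) : Bool :=
  let A := U P.A
  let B := U P.B
  let e := A.norm1 + B.norm1 + 2
  decide (|Tri.dot A (U j) - P.N * (X j).x| + (A.norm1 + (U j).norm1 + 3) ≤ 12 * P.N) &&
  decide (|Tri.dot B (U j) - P.N * (X j).y| + (B.norm1 + (U j).norm1 + 3) ≤ 12 * P.N) &&
  decide (|Tri.dot (Tri.cross A B) (U j) - P.N ^ 2 * (X j).z| +
    (e * (U j).norm1 + (Tri.cross A B).norm1 + 3 * e) ≤ 12 * P.N ^ 2)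

theorem init_close (P : Par) (U X : ℕ → Tri ℤ) (hN : 1 < P.N) (j : ℕ)
    (hA : lenOK P.N (U P.A) = true) (hB : lenOK P.N (U P.B) = true)
    (hj : lenOK P.N (U j) = true) (h : initOK P U X j = true) :
    (dev X (coords P (chain U)) j).le 12 := by
  have sA := sedge_close hN U hA
  have sB := sedge_close hN U hB
  have sj := sedge_close hN U hj
  have hN' : (0 : ℝ) < P.N := by
    have : (1 : ℝ) < P.N := by exact_mod_cast hN
    linarith
  simp only [initOK, Bool.and_eq_true, decide_eq_true_eq] at h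
  obtain ⟨⟨h1, h2⟩, h3⟩ := h
  have h1' := (Int.cast_le (R := ℝ)).mpr h1
  have h2' := (Int.cast_le (R := ℝ)).mpr h2
  have h3' := (Int.cast_le (R := ℝ)).mpr h3
  clear h1 h2 h3
  push_cast at h1' h2' h3'
  simp only [norm1_cast, dot_toR, cross_toR] at h1' h2' h3'
  have d1 := dot_close _ _ _ _ 1 1 sA sj
  have d2 := dot_close _ _ _ _ 1 1 sB sj
  have cr := cross_comp_close _ _ _ _ 1 1 sA sB
  have d3 := dot_close _ _ _ _ _ 1 cr sj
  have e1 : Tri.dot (sedge P.N (chain U) P.A) (sedge P.N (chain U) j) =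
      P.N * (coords P (chain U) j).x := by
    simp only [sedge, coords, mx, Tri.dot, Tri.smul]; ring
  have e2 : Tri.dot (sedge P.N (chain U) P.B) (sedge P.N (chain U) j) =
      P.N * (coords P (chain U) j).y := by
    simp only [sedge, coords, mx, Tri.dot, Tri.smul]; ring
  have e3 : Tri.dot (Tri.cross (sedge P.N (chain U) P.A) (sedge P.N (chain U) P.B))
      (sedge P.N (chain U) j) = (P.N : ℝ) ^ 2 * (coords P (chain U) j).z := by
    simp only [sedge, coords, mx, Tri.dot, Tri.smul, Tri.cross]; ring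
  rw [e1] at d1
  rw [e2] at d2
  rw [e3] at d3
  set x := coords P (chain U) j
  have key : ∀ (M s t e : ℝ) (hM : 0 < M) (y : ℝ), |M * y - t| ≤ e → |t - M * s| + e ≤ 12 * M →
      |y - s| ≤ 12 := by
    intro M s t e hM y hy hs
    have h4 : |M * (y - s)| ≤ 12 * M := by
      have : M * (y - s) = (M * y - t) + (t - M * s) := by ring
      rw [this]
      exact (abs_add_le _ _).trans (by linarith)
    rw [abs_mul, abs_of_pos hM] at h4
    have h5 : M * |y - s| ≤ M * 12 := by linarith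
    exact le_of_mul_le_mul_left h5 hM
  refine ⟨?_, ?_, ?_⟩
  · simp only [dev, Tri.sub, Tri.toR]
    exact key P.N _ _ _ hN' _ d1 (by linarith)
  · simp only [dev, Tri.sub, Tri.toR]
    exact key P.N _ _ _ hN' _ d2 (by linarith)
  · simp only [dev, Tri.sub, Tri.toR]
    have hN2 : (0 : ℝ) < (P.N : ℝ) ^ 2 := by positivity
    exact key _ _ _ _ hN2 _ d3 (by linarith)

/-- check of the sign of a contact determinant at the initial chain -/
def Row.sgnOK (X : ℕ → Tri ℤ) : Row → Bool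
  | .C a L neg => decide (0 < sgn neg * cdet X a L - sumAbs (rowC X a L) * 12 - errC X 12 a L)
  | _ => true

theorem length_rowC (X : ℕ → Tri ℤ) (a L : ℕ) : (rowC X a L).length = a + 1 + L + 1 := by
  simp [rowC]; omega

theorem sgn_init (X : ℕ → Tri ℤ) (x : ℕ → Tri ℝ) (n : ℕ) (hz : ∀ k, k < n → (dev X x k).le 12)
    (r : Row) (hr : r.sgnOK X = true) (P : Par) (hc : r.cok P X n = true) : r.Weak x := by
  rcases r with ⟨a, L, neg⟩ | j | k
  · simp only [Row.sgnOK, decide_eq_true_eq] at hr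
    simp only [Row.cok, Bool.and_eq_true, decide_eq_true_eq] at hc
    have hb := hc.1.2
    have h1 := contact_expand X x 12 (by norm_num) a L (fun k hk => by
      have := hz k (by omega)
      exact_mod_cast this)
    have h2 := abs_ev_le (rowC X a L) (dev X x) 12 (by norm_num) (fun k hk => by
      rw [length_rowC] at hk
      exact hz k (by omega))
    have hr' := (Int.cast_lt (R := ℝ)).mpr hr
    push_cast at hr'
    simp only [Row.Weak]
    rw [abs_le] at h1 h2
    rcases neg with _ | _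
    · simp only [sgn] at hr' ⊢
      norm_num at hr' ⊢
      linarith [h1.1, h1.2, h2.1, h2.2]
    · simp only [sgn] at hr' ⊢
      norm_num at hr' ⊢
      linarith [h1.1, h1.2, h2.1, h2.2]
  · trivial
  · trivial

/-- separation of the bars `a` and `a+1+L` by the functional `ν` -/
def sepOK (U : ℕ → Tri ℤ) (ν : Tri ℤ) (a L : ℕ) : Bool :=
  let w := psum U a (L + 1)
  let s := (L + 3) * ν.norm1
  let f0 := Tri.dot w ν
  let fa := Tri.dot (U a) ν
  let fb := Tri.dot (U (a + 1 + L)) ν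
  decide (0 < f0 - s) && decide (0 < f0 - fa - s) && decide (0 < f0 + fb - s) &&
    decide (0 < f0 + fb - fa - s)

theorem psum_close {N : ℤ} (hN : 1 < N) (U : ℕ → Tri ℤ) (n : ℕ)
    (h : ∀ j, j < n → lenOK N (U j) = true) (a k : ℕ) (hk : a + k ≤ n) :
    (Tri.sub (Tri.smul (N : ℝ) (tri (chain U (a + k) - chain U a))) (psum U a k).toR).le k := by
  have h1 := psum_le (fun i => Tri.sub (sedge N (chain U) i) (U i).toR) a k 1
    (fun i hi hi' => sedge_close hN U (h i (by omega)))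
  rw [psum_sub, ← psum_toR, mul_one] at h1
  have h2 : psum (sedge N (chain U)) a k =
      Tri.smul (N : ℝ) (tri (chain U (a + k) - chain U a)) := by
    rw [← psum_edge]
    clear hk h h1
    induction k with
    | zero => simp [psum, Tri.smul, Tri.zero]
    | succ k ih =>
      simp only [psum, ih]
      simp [Tri.add, Tri.smul, sedge]
      refine ⟨?_, ?_, ?_⟩ <;> ring
  rw [h2] at h1
  exact h1

theorem sep_disjoint {N : ℤ} (hN : 1 < N) (U : ℕ → Tri ℤ) (n : ℕ)
    (h : ∀ j, j < n → lenOK N (U j) = true) (ν : Tri ℤ) (a L : ℕ) (hb : a + 1 + L < n)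
    (hs : sepOK U ν a L = true) :
    Disjoint (segment ℝ (chain U a) (chain U (a + 1)))
      (segment ℝ (chain U (a + 1 + L)) (chain U (a + 1 + L + 1))) := by
  rw [Set.disjoint_left]
  rintro y h1 h2
  rw [segment_eq_image'] at h1 h2
  obtain ⟨s, ⟨hs0, hs1⟩, rfl⟩ := h1
  obtain ⟨t, ⟨ht0, ht1⟩, h2⟩ := h2
  simp only at h2
  -- the relation between the scaled vectors
  have ca := sedge_close hN U (h a (by omega))
  have cb := sedge_close hN U (h (a + 1 + L) hb)
  have cw := psum_close hN U n h a (L + 1) (by omega)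
  have eidx : a + (L + 1) = a + 1 + L := by ring
  rw [eidx] at cw
  set wa := sedge N (chain U) a with hwa
  set wb := sedge N (chain U) (a + 1 + L) with hwb
  set ww := Tri.smul (N : ℝ) (tri (chain U (a + 1 + L) - chain U a)) with hww
  have rel : Tri.add ww (Tri.smul t wb) = Tri.smul s wa := by
    have h3 : (chain U (a + 1 + L) - chain U a) + t • (chain U (a + 1 + L + 1) -
        chain U (a + 1 + L)) = s • (chain U (a + 1) - chain U a) := by
      generalize t • (chain U (a + 1 + L + 1) - chain U (a + 1 + L)) = v1 at h2 ⊢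
      generalize s • (chain U (a + 1) - chain U a) = v2 at h2 ⊢
      calc chain U (a + 1 + L) - chain U a + v1 = (chain U (a + 1 + L) + v1) - chain U a := by abel
        _ = v2 := by rw [h2]; abel
    have h4 := congrArg (fun v => Tri.smul (N : ℝ) (tri v)) h3
    simp only [tri_add, tri_smul] at h4
    have e1 : Tri.add ww (Tri.smul t wb) = Tri.smul (N : ℝ)
        ((tri (chain U (a + 1 + L) - chain U a)).add
          (Tri.smul t (tri (chain U (a + 1 + L + 1) - chain U (a + 1 + L))))) := by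
      simp only [hww, hwb, sedge, edge, Tri.add, Tri.smul, Tri.mk.injEq]
      refine ⟨?_, ?_, ?_⟩ <;> ring
    have e2 : Tri.smul s wa = Tri.smul (N : ℝ) (Tri.smul s (tri (chain U (a + 1) - chain U a))) := by
      simp only [hwa, sedge, edge, Tri.smul, Tri.mk.injEq]
      refine ⟨?_, ?_, ?_⟩ <;> ring
    rw [e1, e2, h4]
  have rel2 : Tri.dot ww ν.toR + t * Tri.dot wb ν.toR - s * Tri.dot wa ν.toR = 0 := by
    have := congrArg (fun v => Tri.dot v ν.toR) rel
    simp only [Tri.dot, Tri.add, Tri.smul] at this ⊢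
    linarith
  have da := abs_dot_le _ ν.toR 1 ca
  have db := abs_dot_le _ ν.toR 1 cb
  have dw := abs_dot_le _ ν.toR _ cw
  have sub_dot : ∀ p q r : Tri ℝ, Tri.dot (Tri.sub p q) r = Tri.dot p r - Tri.dot q r := by
    intro p q r; simp only [Tri.dot, Tri.sub]; ring
  rw [sub_dot] at da db dw
  simp only [sepOK, Bool.and_eq_true, decide_eq_true_eq] at hs
  obtain ⟨⟨⟨k1, k2⟩, k3⟩, k4⟩ := hs
  have k1' := (Int.cast_lt (R := ℝ)).mpr k1
  have k2' := (Int.cast_lt (R := ℝ)).mpr k2
  have k3' := (Int.cast_lt (R := ℝ)).mpr k3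
  have k4' := (Int.cast_lt (R := ℝ)).mpr k4
  clear k1 k2 k3 k4
  push_cast at k1' k2' k3' k4' dw
  simp only [norm1_cast, dot_toR] at k1' k2' k3' k4'
  set m := |ν.toR.x| + |ν.toR.y| + |ν.toR.z|
  set f0 := Tri.dot (psum U a (L + 1)).toR ν.toR
  set fa := Tri.dot (U a).toR ν.toR
  set fb := Tri.dot (U (a + 1 + L)).toR ν.toR
  set g0 := Tri.dot ww ν.toR
  set ga := Tri.dot wa ν.toR
  set gb := Tri.dot wb ν.toR
  rw [abs_le] at da db dw
  -- corner values
  have c00 : 0 < g0 := by linarith [dw.1]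
  have c10 : 0 < g0 - ga := by
    have hm : 0 ≤ m := by positivity
    linarith [dw.1, da.2]
  have c01 : 0 < g0 + gb := by
    have hm : 0 ≤ m := by positivity
    linarith [dw.1, db.1]
  have c11 : 0 < g0 + gb - ga := by
    have hm : 0 ≤ m := by positivity
    linarith [dw.1, db.1, da.2]
  have i0 : 0 < g0 - s * ga := by
    have : g0 - s * ga = (1 - s) * g0 + s * (g0 - ga) := by ring
    rw [this]
    rcases eq_or_lt_of_le hs0 with h | h
    · rw [← h]; simpa using c00
    · have := mul_nonneg (sub_nonneg.mpr hs1) c00.le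
      have := mul_pos h c10
      linarith
  have i1 : 0 < g0 + gb - s * ga := by
    have : g0 + gb - s * ga = (1 - s) * (g0 + gb) + s * (g0 + gb - ga) := by ring
    rw [this]
    rcases eq_or_lt_of_le hs0 with h | h
    · rw [← h]; simpa using c01
    · have := mul_nonneg (sub_nonneg.mpr hs1) c01.le
      have := mul_pos h c11
      linarith
  have i2 : 0 < g0 + t * gb - s * ga := by
    have : g0 + t * gb - s * ga = (1 - t) * (g0 - s * ga) + t * (g0 + gb - s * ga) := by ring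
    rw [this]
    rcases eq_or_lt_of_le ht0 with h | h
    · rw [← h]; simpa using i0
    · have := mul_nonneg (sub_nonneg.mpr ht1) i0.le
      have := mul_pos h i1
      linarith
  linarith

/-- consecutive edges are not opposite -/
def adjOK (U : ℕ → Tri ℤ) (i : ℕ) : Bool :=
  decide (2 < |(U i).x + (U (i + 1)).x|) || decide (2 < |(U i).y + (U (i + 1)).y|) ||
    decide (2 < |(U i).z + (U (i + 1)).z|)

theorem adj_inter {N : ℤ} (hN : 1 < N) (U : ℕ → Tri ℤ) (n : ℕ)
    (h : ∀ j, j < n → lenOK N (U j) = true) (i : ℕ) (hi : i + 1 < n) (ha : adjOK U i = true) :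
    segment ℝ (chain U i) (chain U (i + 1)) ∩ segment ℝ (chain U (i + 1)) (chain U (i + 2)) =
      {chain U (i + 1)} := by
  apply Set.Subset.antisymm
  · rintro y ⟨h1, h2⟩
    rw [segment_symm, segment_eq_image'] at h1
    rw [segment_eq_image'] at h2
    obtain ⟨s, ⟨hs0, hs1⟩, rfl⟩ := h1
    obtain ⟨t, ⟨ht0, ht1⟩, h2⟩ := h2
    simp only at h2
    have hu := chain_unit hN U n h
    have e1 : ‖chain U i - chain U (i + 1)‖ = 1 := by
      rw [← dist_eq_norm]; exact hu i (by omega)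
    have e2 : ‖chain U (i + 1 + 1) - chain U (i + 1)‖ = 1 := by
      rw [← dist_eq_norm, dist_comm]; exact hu (i + 1) (by omega)
    have h3 : t • (chain U (i + 1 + 1) - chain U (i + 1)) = s • (chain U i - chain U (i + 1)) :=
      add_left_cancel h2
    have h4 := congrArg norm h3
    rw [norm_smul, norm_smul, e1, e2, mul_one, mul_one, Real.norm_of_nonneg ht0,
      Real.norm_of_nonneg hs0] at h4
    subst h4
    by_cases ht : t = 0
    · subst ht; simp
    · exfalso
      have h5 : chain U (i + 1 + 1) - chain U (i + 1) = chain U i - chain U (i + 1) := by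
        exact smul_right_injective E ht h3
      have h6 : edge (chain U) (i + 1) = Tri.smul (-1) (edge (chain U) i) := by
        rw [edge, edge, h5, ← tri_smul]
        congr 1
        simp
      have c0 := sedge_close hN U (h i (by omega))
      have c1 := sedge_close hN U (h (i + 1) hi)
      simp only [sedge, h6, Tri.sub, Tri.smul, Tri.toR, Tri.le] at c0 c1
      obtain ⟨a1, a2, a3⟩ := c0
      obtain ⟨b1, b2, b3⟩ := c1
      have fin : ∀ (y : ℝ) (p q : ℤ), |(N : ℝ) * y - p| ≤ 1 → |(N : ℝ) * (-1 * y) - q| ≤ 1 →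
          ¬ (2 < |p + q|) := by
        intro y p q hp hq hpq
        have : (2 : ℝ) < |(p : ℝ) + q| := by exact_mod_cast hpq
        have h7 : |(p : ℝ) + q| ≤ 2 := by
          have : (p : ℝ) + q = -(((N : ℝ) * y - p) + ((N : ℝ) * (-1 * y) - q)) := by ring
          rw [this, abs_neg]
          exact (abs_add_le _ _).trans (by linarith)
        linarith
      simp only [adjOK, Bool.or_eq_true, decide_eq_true_eq] at ha
      rcases ha with (ha | ha) | ha
      · exact fin _ _ _ a1 b1 ha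
      · exact fin _ _ _ a2 b2 ha
      · exact fin _ _ _ a3 b3 ha
  · rintro y rfl
    exact ⟨right_mem_segment _ _ _, left_mem_segment _ _ _⟩

end Pool.Agent.Locked
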