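import Pool.Agent.Locked.Check1
import Pool.Agent.Locked.Init

set_option autoImplicit false
set_option maxRecDepth 100000

namespace Pool.Agent.Locked

def U0 (j : ℕ) : Tri ℤ := Ul.getD j Tri.zero

/-- separating functional of the bars `a` and `a+1+L`, `L ≥ 1` -/
def nu0 (a L : ℕ) : Tri ℤ := (nus.getD a []).getD (L - 1) Tri.zero

theorem len0 : (List.range 18).all (fun j => lenOK P0.N (U0 j)) = true := by decide +kernel

theorem init0 : (List.range 18).all (fun j => initOK P0 U0 X0 j) = true := by decide +kernel

theorem sgn0 : rows0.all (Row.sgnOK X0) = true := by decide +kernel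

theorem cok0 : rows0.all (Row.cok P0 X0 18) = true := by decide +kernel

theorem adj0 : (List.range 17).all (fun j => adjOK U0 j) = true := by decide +kernel

theorem sep0 : (List.range 18).all (fun a => (List.range 18).all (fun L =>
    decide (L = 0) || decide (18 ≤ a + 1 + L) || sepOK U0 (nu0 a L) a L)) = true := by
  decide +kernel

theorem cc0 : |(X0 P0.A).y| + P0.ρ < P0.N := by decide +kernel

end Pool.Agent.Locked
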