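import Pool.Agent.Locked.Rows

set_option autoImplicit false

namespace Pool.Agent.Locked

abbrev E := EuclideanSpace ℝ (Fin 3)

def tri (v : E) : Tri ℝ := ⟨v 0, v 1, v 2⟩

def mx (N : ℝ) (p q v : Tri ℝ) : Tri ℝ :=
  ⟨N * Tri.dot p v, N * Tri.dot q v, N * Tri.dot (Tri.cross p q) v⟩

/-- the edge vector number `j` -/
def edge (q : ℕ → E) (j : ℕ) : Tri ℝ := tri (q (j + 1) - q j)

/-- scaled isometry invariant coordinates of a chain -/
def coords (P : Par) (q : ℕ → E) (j : ℕ) : Tri ℝ :=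
  mx P.N (edge q P.A) (edge q P.B) (edge q j)

theorem tri_zero : tri 0 = Tri.zero := by
  simp [tri, Tri.zero]

theorem tri_injective {v w : E} (h : tri v = tri w) : v = w := by
  simp only [tri, Tri.mk.injEq] at h
  ext i
  fin_cases i
  · exact h.1
  · exact h.2.1
  · exact h.2.2

theorem tri_add (v w : E) : tri (v + w) = Tri.add (tri v) (tri w) := by
  simp [tri, Tri.add]

theorem tri_sub (v w : E) : tri (v - w) = Tri.sub (tri v) (tri w) := by
  simp [tri, Tri.sub]

theorem tri_smul (c : ℝ) (v : E) : tri (c • v) = Tri.smul c (tri v) := by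
  simp [tri, Tri.smul]

theorem psum_edge (q : ℕ → E) (a k : ℕ) : psum (edge q) a k = tri (q (a + k) - q a) := by
  induction k with
  | zero => simp [psum, tri_zero]
  | succ k ih =>
    simp only [psum, ih, edge]
    rw [← tri_add]
    congr 1
    have : a + (k + 1) = a + k + 1 := by ring
    rw [this]
    abel

theorem mx_add (N : ℝ) (p q v w : Tri ℝ) :
    mx N p q (Tri.add v w) = Tri.add (mx N p q v) (mx N p q w) := by
  ext <;> simp [mx, Tri.add, Tri.dot] <;> ring

theorem mx_sub (N : ℝ) (p q v w : Tri ℝ) :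
    mx N p q (Tri.sub v w) = Tri.sub (mx N p q v) (mx N p q w) := by
  ext <;> simp [mx, Tri.sub, Tri.dot] <;> ring

theorem mx_smul (N c : ℝ) (p q v : Tri ℝ) :
    mx N p q (Tri.smul c v) = Tri.smul c (mx N p q v) := by
  ext <;> simp [mx, Tri.smul, Tri.dot] <;> ring

theorem mx_zero (N : ℝ) (p q : Tri ℝ) : mx N p q Tri.zero = Tri.zero := by
  simp [mx, Tri.zero, Tri.dot]

theorem psum_mx (N : ℝ) (p q : Tri ℝ) (u : ℕ → Tri ℝ) (a k : ℕ) :
    psum (fun j => mx N p q (u j)) a k = mx N p q (psum u a k) := by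
  induction k with
  | zero => simp [psum, mx_zero]
  | succ k ih => simp [psum, ih, mx_add]

theorem psum_coords (P : Par) (q : ℕ → E) (a k : ℕ) :
    psum (coords P q) a k = mx P.N (edge q P.A) (edge q P.B) (tri (q (a + k) - q a)) := by
  rw [← psum_edge, ← psum_mx]
  rfl

/-- Gram determinant identity -/
theorem gram (p q v : Tri ℝ) :
    Tri.dot (Tri.cross p q) v ^ 2 =
      Tri.dot p p * Tri.dot q q * Tri.dot v v
      + 2 * Tri.dot p v * Tri.dot q v * Tri.dot p q
      - Tri.dot p p * Tri.dot q v ^ 2 - Tri.dot q q * Tri.dot p v ^ 2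
      - Tri.dot v v * Tri.dot p q ^ 2 := by
  simp only [Tri.dot, Tri.cross]
  ring

theorem dot_self_eq (v w : E) (h : dist v w = 1) : Tri.dot (tri (w - v)) (tri (w - v)) = 1 := by
  rw [EuclideanSpace.dist_eq, Fin.sum_univ_three] at h
  have h2 := (Real.sqrt_eq_one).mp h
  simp only [Real.dist_eq, sq_abs] at h2
  simp only [tri, Tri.dot, PiLp.sub_apply]
  linarith

def Unit (n : ℕ) (q : ℕ → E) : Prop := ∀ i, i < n → dist (q i) (q (i + 1)) = 1

theorem edge_unit {n : ℕ} {q : ℕ → E} (h : Unit n q) {j : ℕ} (hj : j < n) :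
    Tri.dot (edge q j) (edge q j) = 1 := dot_self_eq _ _ (h j hj)

theorem dot_comm' (p q : Tri ℝ) : Tri.dot p q = Tri.dot q p := by
  simp only [Tri.dot]; ring

theorem coords_norm (P : Par) {n : ℕ} {q : ℕ → E} (h : Unit n q) (hA : P.A < n) (hB : P.B < n)
    {j : ℕ} (hj : j < n) : NormEq P (coords P q) j := by
  have g := gram (edge q P.A) (edge q P.B) (edge q j)
  rw [edge_unit h hA, edge_unit h hB, edge_unit h hj] at g
  simp only [NormEq, coords, mx]
  rw [dot_comm' (edge q P.B) (edge q P.A)]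
  linear_combination (P.N : ℝ) ^ 3 * g

theorem coords_gauge (P : Par) {n : ℕ} {q : ℕ → E} (h : Unit n q) (hA : P.A < n) (hB : P.B < n) :
    Gauge P (coords P q) := by
  have hA' := edge_unit h hA
  have hB' := edge_unit h hB
  simp only [Gauge, coords, mx]
  refine ⟨?_, ?_, ?_, ?_, ?_⟩
  · rw [hA', mul_one]
  · have : Tri.dot (Tri.cross (edge q P.A) (edge q P.B)) (edge q P.A) = 0 := by
      simp only [Tri.dot, Tri.cross]; ring
    rw [this, mul_zero]
  · rw [hB', mul_one]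
  · have : Tri.dot (Tri.cross (edge q P.A) (edge q P.B)) (edge q P.B) = 0 := by
      simp only [Tri.dot, Tri.cross]; ring
    rw [this, mul_zero]
  · rw [dot_comm']

/-- `mx` is injective when the two reference vectors are independent unit vectors. -/
theorem mx_injective {N : ℝ} (hN : N ≠ 0) {p q v : Tri ℝ} (hp : Tri.dot p p = 1)
    (hq : Tri.dot q q = 1) (hc : Tri.dot p q ^ 2 ≠ 1) (h : mx N p q v = Tri.zero) :
    v = Tri.zero := by
  simp only [mx, Tri.zero, Tri.mk.injEq, mul_eq_zero, hN, false_or] at h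
  obtain ⟨h1, h2, h3⟩ := h
  have g := gram p q v
  rw [h1, h2, h3, hp, hq] at g
  have g' : Tri.dot v v * (1 - Tri.dot p q ^ 2) = 0 := by linarith
  have g2 : Tri.dot v v = 0 := by
    rcases mul_eq_zero.mp g' with h | h
    · exact h
    · exact absurd (by linarith) hc
  simp only [Tri.dot] at g2
  have e1 : v.x = 0 := by nlinarith [sq_nonneg v.x, sq_nonneg v.y, sq_nonneg v.z]
  have e2 : v.y = 0 := by nlinarith [sq_nonneg v.x, sq_nonneg v.y, sq_nonneg v.z]
  have e3 : v.z = 0 := by nlinarith [sq_nonneg v.x, sq_nonneg v.y, sq_nonneg v.z]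
  ext <;> simp [Tri.zero, e1, e2, e3]

/-- integer check: near `X` the feet of the common perpendicular of the two bars are interior -/
def crossOK (P : Par) (X : ℕ → Tri ℤ) (a L : ℕ) : Bool :=
  let p := X a
  let q := X (a + 1 + L)
  let w := psum X a (L + 1)
  let ν := Tri.cross p q
  let s := ν.norm1
  let e1 := P.ρ * (p.norm1 + q.norm1) + 2 * P.ρ ^ 2
  let e2 := (L + 1) * P.ρ * q.norm1 + P.ρ * w.norm1 + 2 * (L + 1) * P.ρ ^ 2
  let e3 := (L + 1) * P.ρ * p.norm1 + P.ρ * w.norm1 + 2 * (L + 1) * P.ρ ^ 2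
  let D := Tri.dot ν ν
  let S1 := Tri.dot (Tri.cross w q) ν
  let T1 := -Tri.dot (Tri.cross p w) ν
  decide (0 < S1 - e2 * s) && decide (S1 + e2 * s < D - e1 * s) &&
    decide (0 < T1 - e3 * s) && decide (T1 + e3 * s < D - e1 * s)

theorem le_cross (δ Q ν : Tri ℝ) (a : ℝ) (h : δ.le a) :
    |Tri.dot (Tri.cross δ Q) ν| ≤
      a * (|Q.x| + |Q.y| + |Q.z|) * (|ν.x| + |ν.y| + |ν.z|) := by
  obtain ⟨h1, h2, h3⟩ := h
  have ha : 0 ≤ a := (abs_nonneg _).trans h1
  have key : ∀ s t p q c d : ℝ, |s| ≤ a → |t| ≤ a → |(s * p - t * q) * c| ≤ a * (|p| + |q|) * |c| := by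
    intro s t p q c d hs ht
    rw [abs_mul]
    apply mul_le_mul_of_nonneg_right _ (abs_nonneg _)
    calc |s * p - t * q| ≤ |s * p| + |t * q| := abs_sub _ _
      _ = |s| * |p| + |t| * |q| := by rw [abs_mul, abs_mul]
      _ ≤ a * |p| + a * |q| := add_le_add (mul_le_mul_of_nonneg_right hs (abs_nonneg _))
          (mul_le_mul_of_nonneg_right ht (abs_nonneg _))
      _ = a * (|p| + |q|) := by ring
  have k1 := key δ.y δ.z Q.z Q.y ν.x 0 h2 h3
  have k2 := key δ.z δ.x Q.x Q.z ν.y 0 h3 h1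
  have k3 := key δ.x δ.y Q.y Q.x ν.z 0 h1 h2
  simp only [Tri.dot, Tri.cross]
  have n1 := abs_nonneg Q.x
  have n2 := abs_nonneg Q.y
  have n3 := abs_nonneg Q.z
  have m1 := abs_nonneg ν.x
  have m2 := abs_nonneg ν.y
  have m3 := abs_nonneg ν.z
  calc _ ≤ |(δ.y * Q.z - δ.z * Q.y) * ν.x| + |(δ.z * Q.x - δ.x * Q.z) * ν.y| +
        |(δ.x * Q.y - δ.y * Q.x) * ν.z| := by
        refine (abs_add_le _ _).trans (add_le_add ?_ le_rfl)
        exact (abs_add_le _ _)
    _ ≤ a * (|Q.z| + |Q.y|) * |ν.x| + a * (|Q.x| + |Q.z|) * |ν.y| + a * (|Q.y| + |Q.x|) * |ν.z| := by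
        linarith
    _ ≤ _ := by
        have t1 : 0 ≤ a * |Q.x| * |ν.x| := by positivity
        have t2 : 0 ≤ a * |Q.y| * |ν.y| := by positivity
        have t3 : 0 ≤ a * |Q.z| * |ν.z| := by positivity
        nlinarith [t1, t2, t3]

theorem cross_close (p q p' q' ν : Tri ℝ) (a b : ℝ) (hp : (Tri.sub p' p).le a)
    (hq : (Tri.sub q' q).le b) :
    |Tri.dot (Tri.cross p' q') ν - Tri.dot (Tri.cross p q) ν| ≤
      (a * (|q.x| + |q.y| + |q.z|) + b * (|p.x| + |p.y| + |p.z|) + 2 * a * b) *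
        (|ν.x| + |ν.y| + |ν.z|) := by
  have e : Tri.dot (Tri.cross p' q') ν - Tri.dot (Tri.cross p q) ν =
      Tri.dot (Tri.cross (Tri.sub p' p) q) ν + -(Tri.dot (Tri.cross (Tri.sub q' q) p) ν) +
      Tri.dot (Tri.cross (Tri.sub p' p) (Tri.sub q' q)) ν := by
    simp only [Tri.dot, Tri.cross, Tri.sub]; ring
  rw [e]
  have h1 := le_cross (Tri.sub p' p) q ν a hp
  have h2 := le_cross (Tri.sub q' q) p ν b hq
  have h3 := det_le (Tri.sub p' p) (Tri.sub q' q) ν a b hp hq
  calc _ ≤ |Tri.dot (Tri.cross (Tri.sub p' p) q) ν| + |-(Tri.dot (Tri.cross (Tri.sub q' q) p) ν)| +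
      |Tri.dot (Tri.cross (Tri.sub p' p) (Tri.sub q' q)) ν| := by
        refine (abs_add_le _ _).trans (add_le_add ?_ le_rfl)
        exact (abs_add_le _ _)
    _ ≤ _ := by
        rw [abs_neg]
        nlinarith [h1, h2, h3]

theorem cramer (p q w ν : Tri ℝ) :
    Tri.smul (Tri.dot (Tri.cross p q) ν) w =
      Tri.add (Tri.add (Tri.smul (Tri.dot (Tri.cross w q) ν) p)
        (Tri.smul (Tri.dot (Tri.cross p w) ν) q)) (Tri.smul (Tri.dot (Tri.cross p q) w) ν) := by
  ext <;> simp only [Tri.smul, Tri.add, Tri.dot, Tri.cross] <;> ring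

theorem psum_dev (X : ℕ → Tri ℤ) (x : ℕ → Tri ℝ) (a k : ℕ) :
    psum (dev X x) a k = Tri.sub (psum x a k) (psum X a k).toR := by
  rw [psum_toR, ← psum_sub]
  rfl

/-- If the contact determinant vanishes near `X`, then the line parameters are in `(0,1)`. -/
theorem contact_params (P : Par) (X : ℕ → Tri ℤ) (x : ℕ → Tri ℝ) (a L : ℕ)
    (hc : crossOK P X a L = true)
    (hz : ∀ k, k < a + 1 + L + 1 → (dev X x k).le P.ρ)
    (h0 : cdet x a L = 0) :
    ∃ s t : ℝ, 0 < s ∧ s < 1 ∧ 0 < t ∧ t < 1 ∧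
      psum x a (L + 1) = Tri.sub (Tri.smul s (x a)) (Tri.smul t (x (a + 1 + L))) := by
  set p := x a with hp
  set q := x (a + 1 + L) with hq
  set w := psum x a (L + 1) with hw
  set ν := Tri.cross (X a).toR (X (a + 1 + L)).toR with hν
  have hw1 : Tri.dot (Tri.cross p q) w = 0 := by
    have : w = Tri.add (x a) (psum x (a + 1) L) := by
      rw [hw, psum_succ', psum_shift]
    rw [this]
    have h0' : Tri.dot (Tri.cross p q) (psum x (a + 1) L) = 0 := h0
    have : Tri.dot (Tri.cross p q) (Tri.add (x a) (psum x (a + 1) L)) =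
      Tri.dot (Tri.cross p q) (psum x (a + 1) L) := by
      rw [← hp]
      simp only [Tri.dot, Tri.cross, Tri.add]; ring
    rw [this, h0']
  have hdp : (Tri.sub p (X a).toR).le P.ρ := hz a (by omega)
  have hdq : (Tri.sub q (X (a + 1 + L)).toR).le P.ρ := hz (a + 1 + L) (by omega)
  have hdw : (Tri.sub w (psum X a (L + 1)).toR).le (((L : ℝ) + 1) * P.ρ) := by
    have := psum_le (dev X x) a (L + 1) P.ρ (fun i hi hi' => hz i (by omega))
    rw [psum_dev] at this
    push_cast at this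
    exact this
  have c1 := cross_close _ _ p q ν _ _ hdp hdq
  have c2 := cross_close _ _ w q ν _ _ hdw hdq
  have c3 := cross_close _ _ p w ν _ _ hdp hdw
  simp only [crossOK, Bool.and_eq_true, decide_eq_true_eq] at hc
  obtain ⟨⟨⟨k1, k2⟩, k3⟩, k4⟩ := hc
  have k1' := (Int.cast_lt (R := ℝ)).mpr k1
  have k2' := (Int.cast_lt (R := ℝ)).mpr k2
  have k3' := (Int.cast_lt (R := ℝ)).mpr k3
  have k4' := (Int.cast_lt (R := ℝ)).mpr k4
  clear k1 k2 k3 k4
  push_cast at k1' k2' k3' k4'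
  simp only [norm1_cast, dot_toR, cross_toR] at k1' k2' k3' k4'
  rw [← hν] at k1' k2' k3' k4'
  set nn := |ν.x| + |ν.y| + |ν.z|
  rw [abs_le] at c1 c2 c3
  set D := Tri.dot (Tri.cross p q) ν with hD
  set s1 := Tri.dot (Tri.cross w q) ν with hs1
  set t1 := Tri.dot (Tri.cross p w) ν with ht1
  have hsgn1 : 0 < s1 := by linarith [c2.1, c2.2]
  have hsgn2 : s1 < D := by linarith [c2.1, c2.2, c1.1, c1.2]
  have hsgn3 : 0 < -t1 := by linarith [c3.1, c3.2]
  have hsgn4 : -t1 < D := by linarith [c3.1, c3.2, c1.1, c1.2]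
  have hDpos : 0 < D := by linarith
  refine ⟨s1 / D, -t1 / D, by positivity, (div_lt_one hDpos).mpr hsgn2, by positivity,
    (div_lt_one hDpos).mpr hsgn4, ?_⟩
  have hcr := cramer p q w ν
  rw [hw1, ← hD, ← hs1, ← ht1] at hcr
  simp only [Tri.smul, Tri.add, Tri.mk.injEq] at hcr
  obtain ⟨r1, r2, r3⟩ := hcr
  ext <;> simp only [Tri.smul, Tri.sub] <;> field_simp <;> linarith

/-- A simple chain near `X` has a nonzero contact determinant. -/
theorem contact_ne (P : Par) (X : ℕ → Tri ℤ) (n : ℕ) (q : ℕ → E) (hu : Unit n q)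
    (hN : P.N ≠ 0) (hA : P.A < n) (hB : P.B < n)
    (hz : ∀ k, k < n → (dev X (coords P q) k).le P.ρ)
    (hcc : |(X P.A).y| + P.ρ < P.N)
    (a L : ℕ) (hb : a + 1 + L < n) (hc : crossOK P X a L = true)
    (hdis : Disjoint (segment ℝ (q a) (q (a + 1)))
      (segment ℝ (q (a + 1 + L)) (q (a + 1 + L + 1)))) :
    cdet (coords P q) a L ≠ 0 := by
  intro h0
  obtain ⟨s, t, hs0, hs1, ht0, ht1, hw⟩ := contact_params P X (coords P q) a L hc
    (fun k hk => hz k (by omega)) h0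
  have hN' : (P.N : ℝ) ≠ 0 := by exact_mod_cast hN
  have hc2 : Tri.dot (edge q P.A) (edge q P.B) ^ 2 ≠ 1 := by
    have h1 := (hz P.A hA).2.1
    simp only [dev, Tri.sub, Tri.toR, coords, mx] at h1
    have hcc' : |((X P.A).y : ℝ)| + P.ρ < P.N := by exact_mod_cast hcc
    intro hsq
    have habs : |Tri.dot (edge q P.A) (edge q P.B)| = 1 := by
      have : |Tri.dot (edge q P.A) (edge q P.B)| ^ 2 = 1 ^ 2 := by rw [sq_abs, hsq, one_pow]
      exact (pow_left_inj₀ (abs_nonneg _) zero_le_one two_ne_zero).mp this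
    rw [dot_comm' (edge q P.B)] at h1
    have hNpos : (0 : ℝ) < P.N := by
      have : (0 : ℝ) ≤ P.ρ := (abs_nonneg _).trans h1
      have := abs_nonneg ((X P.A).y : ℝ)
      linarith
    have h2 : |(P.N : ℝ) * Tri.dot (edge q P.A) (edge q P.B)| = P.N := by
      rw [abs_mul, habs, mul_one, abs_of_pos hNpos]
    have h3 : |(P.N : ℝ) * Tri.dot (edge q P.A) (edge q P.B)| ≤
        |(P.N : ℝ) * Tri.dot (edge q P.A) (edge q P.B) - (X P.A).y| + |((X P.A).y : ℝ)| := by
      have := abs_add_le ((P.N : ℝ) * Tri.dot (edge q P.A) (edge q P.B) - (X P.A).y) ((X P.A).y : ℝ)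
      simpa using this
    linarith
  have key : tri ((q (a + 1 + L) - q a) - (s • (q (a + 1) - q a) -
      t • (q (a + 1 + L + 1) - q (a + 1 + L)))) = Tri.zero := by
    apply mx_injective hN' (edge_unit hu hA) (edge_unit hu hB) hc2
    rw [tri_sub, mx_sub, tri_sub (s • _), mx_sub, tri_smul, tri_smul, mx_smul, mx_smul]
    have e1 : mx P.N (edge q P.A) (edge q P.B) (tri (q (a + 1 + L) - q a)) =
        psum (coords P q) a (L + 1) := by
      rw [psum_coords]
      congr 3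
      rw [add_assoc a 1 L, add_comm 1 L]
    rw [e1, hw]
    simp only [coords, edge]
    ext <;> simp [Tri.sub, Tri.zero]
  rw [← tri_zero] at key
  have hv := tri_injective key
  have heq : q a + s • (q (a + 1) - q a) =
      q (a + 1 + L) + t • (q (a + 1 + L + 1) - q (a + 1 + L)) := by
    rw [sub_eq_zero] at hv
    generalize s • (q (a + 1) - q a) = v1 at hv ⊢
    generalize t • (q (a + 1 + L + 1) - q (a + 1 + L)) = v2 at hv ⊢
    calc q a + v1 = q a + ((v1 - v2) + v2) := by abel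
      _ = q a + ((q (a + 1 + L) - q a) + v2) := by rw [hv]
      _ = q (a + 1 + L) + v2 := by abel
  rw [Set.disjoint_left] at hdis
  apply hdis (a := q a + s • (q (a + 1) - q a))
  · rw [segment_eq_image']
    exact ⟨s, ⟨hs0.le, hs1.le⟩, rfl⟩
  · rw [heq, segment_eq_image']
    exact ⟨t, ⟨ht0.le, ht1.le⟩, rfl⟩

end Pool.Agent.Locked
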