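import Mathlib

set_option autoImplicit false

/-!
Integer linear certificates, written so that the kernel can evaluate the checks.
-/

namespace Pool.Agent.Locked

/-- Triples. -/
@[ext] structure Tri (R : Type) where
  x : R
  y : R
  z : R
deriving DecidableEq

namespace Tri
variable {R : Type}

def add [Add R] (p q : Tri R) : Tri R := ⟨p.x + q.x, p.y + q.y, p.z + q.z⟩
def sub [Sub R] (p q : Tri R) : Tri R := ⟨p.x - q.x, p.y - q.y, p.z - q.z⟩
def smul [Mul R] (c : R) (p : Tri R) : Tri R := ⟨c * p.x, c * p.y, c * p.z⟩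
def zero [Zero R] : Tri R := ⟨0, 0, 0⟩
def dot [Mul R] [Add R] (p q : Tri R) : R := p.x * q.x + p.y * q.y + p.z * q.z
def cross [Mul R] [Sub R] (p q : Tri R) : Tri R :=
  ⟨p.y * q.z - p.z * q.y, p.z * q.x - p.x * q.z, p.x * q.y - p.y * q.x⟩
def toR (p : Tri ℤ) : Tri ℝ := ⟨p.x, p.y, p.z⟩
/-- sup norm at most `b` -/
def le (p : Tri ℝ) (b : ℝ) : Prop := |p.x| ≤ b ∧ |p.y| ≤ b ∧ |p.z| ≤ b
def lt (p : Tri ℝ) (b : ℝ) : Prop := |p.x| < b ∧ |p.y| < b ∧ |p.z| < b
def norm1 (p : Tri ℤ) : ℤ := |p.x| + |p.y| + |p.z|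
end Tri

/-- sum of `k` consecutive triples starting at index `a` -/
def psum {R : Type} [Zero R] [Add R] (u : ℕ → Tri R) (a : ℕ) : ℕ → Tri R
  | 0 => Tri.zero
  | k + 1 => Tri.add (psum u a k) (u (a + k))

/-- evaluation of a linear form -/
def ev : List (Tri ℤ) → (ℕ → Tri ℝ) → ℝ
  | [], _ => 0
  | r :: rs, z => Tri.dot r.toR (z 0) + ev rs (fun k => z (k + 1))

def addL : List (Tri ℤ) → List (Tri ℤ) → List (Tri ℤ)
  | [], w => w
  | v, [] => v
  | a :: v, b :: w => Tri.add a b :: addL v w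

def smulL (c : ℤ) (v : List (Tri ℤ)) : List (Tri ℤ) := v.map (Tri.smul c)

def comb : List ℤ → List (List (Tri ℤ)) → List (Tri ℤ)
  | c :: cs, r :: rs => addL (smulL c r) (comb cs rs)
  | _, _ => []

def lin : List ℤ → List ℝ → ℝ
  | c :: cs, y :: ys => c * y + lin cs ys
  | _, _ => 0

def sumAbs : List (Tri ℤ) → ℤ
  | [] => 0
  | r :: rs => r.norm1 + sumAbs rs

theorem ev_addL (v w : List (Tri ℤ)) (z : ℕ → Tri ℝ) : ev (addL v w) z = ev v z + ev w z := by
  induction v generalizing w z with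
  | nil => simp [addL, ev]
  | cons a v ih =>
    cases w with
    | nil => simp [addL, ev]
    | cons b w =>
      simp only [addL, ev, ih, Tri.dot, Tri.toR, Tri.add]
      push_cast
      ring

theorem ev_smulL (c : ℤ) (v : List (Tri ℤ)) (z : ℕ → Tri ℝ) : ev (smulL c v) z = c * ev v z := by
  induction v generalizing z with
  | nil => simp [smulL, ev]
  | cons a v ih =>
    have := ih (fun k => z (k + 1))
    simp only [smulL, List.map_cons, ev, Tri.dot, Tri.toR, Tri.smul] at this ⊢
    rw [this]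
    push_cast
    ring

theorem ev_comb (cs : List ℤ) (rs : List (List (Tri ℤ))) (z : ℕ → Tri ℝ) :
    ev (comb cs rs) z = lin cs (rs.map (fun r => ev r z)) := by
  induction cs generalizing rs with
  | nil => simp [comb, ev, lin]
  | cons c cs ih =>
    cases rs with
    | nil => simp [comb, ev, lin]
    | cons r rs => simp [comb, lin, ev_addL, ev_smulL, ih]

theorem abs_ev_le (v : List (Tri ℤ)) (z : ℕ → Tri ℝ) (b : ℝ) (hb : 0 ≤ b)
    (hz : ∀ k, k < v.length → (z k).le b) :
    |ev v z| ≤ (sumAbs v : ℝ) * b := by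
  induction v generalizing z with
  | nil => simp [ev, sumAbs]
  | cons a v ih =>
    have h0 := hz 0 (by simp)
    have h1 := ih (fun k => z (k + 1)) (fun k hk => hz (k + 1) (by simpa using hk))
    obtain ⟨hx, hy, hzz⟩ := h0
    simp only [ev, sumAbs, Tri.dot, Tri.toR, Tri.norm1]
    have e1 : |(a.x : ℝ) * (z 0).x| ≤ |(a.x : ℝ)| * b := by
      rw [abs_mul]; exact mul_le_mul_of_nonneg_left hx (abs_nonneg _)
    have e2 : |(a.y : ℝ) * (z 0).y| ≤ |(a.y : ℝ)| * b := by
      rw [abs_mul]; exact mul_le_mul_of_nonneg_left hy (abs_nonneg _)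
    have e3 : |(a.z : ℝ) * (z 0).z| ≤ |(a.z : ℝ)| * b := by
      rw [abs_mul]; exact mul_le_mul_of_nonneg_left hzz (abs_nonneg _)
    push_cast
    rw [abs_le] at *
    constructor <;> nlinarith [e1.1, e1.2, e2.1, e2.2, e3.1, e3.2, h1.1, h1.2]

/-- Each entry of `ys` obeys the bound recorded in `ba`: a one-sided bound for a contact row
(`true`), a two-sided bound for an equality row (`false`). -/
def Good : List (Bool × ℤ) → List ℝ → Prop
  | ba :: bas, y :: ys => 0 ≤ ba.2 ∧ (-(ba.2 : ℝ) ≤ y) ∧ (ba.1 = false → y ≤ ba.2) ∧ Good bas ys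
  | _, _ => True

/-- checks that `|w i| ≤ κ * ω i` on the contact rows -/
def domOK (κ : ℤ) : List ℤ → List ℤ → List (Bool × ℤ) → Bool
  | w :: ws, o :: os, ba :: bas => (!ba.1 || decide (|w| ≤ κ * o)) && domOK κ ws os bas
  | _, _, _ => true

def tot (κ : ℤ) : List ℤ → List ℤ → List (Bool × ℤ) → ℤ
  | w :: ws, o :: os, ba :: bas => (κ * |o| + |w|) * ba.2 + tot κ ws os bas
  | _, _, _ => 0

theorem lin_bound (κ : ℤ) (hκ : 0 ≤ κ) (ws os : List ℤ) (bas : List (Bool × ℤ)) (ys : List ℝ)
    (hl1 : ws.length = ys.length) (hl2 : os.length = ys.length) (hl3 : bas.length = ys.length)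
    (hg : Good bas ys) (hd : domOK κ ws os bas = true) :
    |lin ws ys| ≤ κ * lin os ys + tot κ ws os bas := by
  induction ys generalizing ws os bas with
  | nil =>
    have : ws = [] := List.length_eq_zero_iff.mp (by simpa using hl1)
    have h2 : os = [] := List.length_eq_zero_iff.mp (by simpa using hl2)
    have h3 : bas = [] := List.length_eq_zero_iff.mp (by simpa using hl3)
    subst this h2 h3
    simp [lin, tot]
  | cons y ys ih =>
    obtain ⟨w, ws, rfl⟩ := List.exists_cons_of_length_eq_add_one hl1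
    obtain ⟨o, os, rfl⟩ := List.exists_cons_of_length_eq_add_one hl2
    obtain ⟨ba, bas, rfl⟩ := List.exists_cons_of_length_eq_add_one hl3
    obtain ⟨hb0, hlo, hhi, hg'⟩ := hg
    simp only [domOK, Bool.and_eq_true] at hd
    have IH := ih ws os bas (by simpa using hl1) (by simpa using hl2) (by simpa using hl3) hg' hd.2
    simp only [lin, tot]
    push_cast
    have hb0' : (0 : ℝ) ≤ ba.2 := by exact_mod_cast hb0
    have hκ' : (0 : ℝ) ≤ κ := by exact_mod_cast hκ
    have key : |(w : ℝ) * y| ≤ κ * (o * y) + (κ * |(o : ℝ)| + |(w : ℝ)|) * ba.2 := by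
      rcases hb : ba.1 with _ | _
      · have hy : |y| ≤ ba.2 := abs_le.mpr ⟨hlo, hhi hb⟩
        have h1 : |(w : ℝ) * y| ≤ |(w : ℝ)| * ba.2 := by
          rw [abs_mul]; exact mul_le_mul_of_nonneg_left hy (abs_nonneg _)
        have h2 : |(o : ℝ) * y| ≤ |(o : ℝ)| * ba.2 := by
          rw [abs_mul]; exact mul_le_mul_of_nonneg_left hy (abs_nonneg _)
        have h3 := (abs_le.mp h2).1
        nlinarith [mul_le_mul_of_nonneg_left h3 hκ']
      · have hw : |w| ≤ κ * o := by
          have := hd.1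
          rw [hb] at this
          simpa using this
        have hw' : |(w : ℝ)| ≤ κ * o := by exact_mod_cast hw
        obtain ⟨hw1, hw2⟩ := abs_le.mp hw'
        have hko : (κ : ℝ) * o ≤ κ * |(o : ℝ)| := mul_le_mul_of_nonneg_left (le_abs_self _) hκ'
        rw [abs_le]
        constructor
        · have h1 : 0 ≤ ((κ : ℝ) * o + w) * (y + ba.2) :=
            mul_nonneg (by linarith) (by linarith)
          have h2 : (w : ℝ) * ba.2 ≤ |(w : ℝ)| * ba.2 :=
            mul_le_mul_of_nonneg_right (le_abs_self _) hb0'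
          nlinarith [mul_le_mul_of_nonneg_right hko hb0']
        · have h1 : 0 ≤ ((κ : ℝ) * o - w) * (y + ba.2) :=
            mul_nonneg (by linarith) (by linarith)
          have h2 : -(w : ℝ) * ba.2 ≤ |(w : ℝ)| * ba.2 :=
            mul_le_mul_of_nonneg_right (neg_le_abs _) hb0'
          nlinarith [mul_le_mul_of_nonneg_right hko hb0']
    calc |(w : ℝ) * y + lin ws ys| ≤ |(w : ℝ) * y| + |lin ws ys| := abs_add_le _ _
      _ ≤ _ := by linarith

/-- `S` times the coordinate function number `d` of the triple with index `j` -/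
def unitL (S : ℤ) : ℕ → ℕ → List (Tri ℤ)
  | 0, 0 => [⟨S, 0, 0⟩]
  | 0, 1 => [⟨0, S, 0⟩]
  | 0, _ => [⟨0, 0, S⟩]
  | j + 1, d => ⟨0, 0, 0⟩ :: unitL S j d

def coord (p : Tri ℝ) : ℕ → ℝ
  | 0 => p.x
  | 1 => p.y
  | _ => p.z

theorem ev_unitL (S : ℤ) (j d : ℕ) (z : ℕ → Tri ℝ) :
    ev (unitL S j d) z = S * coord (z j) d := by
  induction j generalizing z with
  | zero =>
    rcases d with _ | _ | d <;> simp [unitL, ev, Tri.dot, Tri.toR, coord]
  | succ j ih => simp [unitL, ev, Tri.dot, Tri.toR, ih]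

/-- The check for one coordinate. -/
def rowOK (S κ ρ : ℤ) (Js : List (List (Tri ℤ))) (os : List ℤ) (sω : ℤ) (bas : List (Bool × ℤ))
    (j d : ℕ) (ws : List ℤ) : Bool :=
  decide (ws.length = Js.length) && domOK κ ws os bas &&
    decide (κ * (sω * ρ) + tot κ ws os bas
      + sumAbs (addL (comb ws Js) (unitL (-S) j d)) * ρ < S * ρ)

theorem length_addL (v w : List (Tri ℤ)) : (addL v w).length = max v.length w.length := by
  induction v generalizing w with
  | nil => simp [addL]
  | cons a v ih => cases w with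
    | nil => simp [addL]
    | cons b w => simp [addL, ih]

theorem length_comb_le (cs : List ℤ) (rs : List (List (Tri ℤ))) (n : ℕ)
    (h : ∀ r ∈ rs, r.length ≤ n) : (comb cs rs).length ≤ n := by
  induction cs generalizing rs with
  | nil => simp [comb]
  | cons c cs ih =>
    cases rs with
    | nil => simp [comb]
    | cons r rs =>
      simp only [comb, length_addL, smulL, List.length_map]
      exact max_le (h r (by simp)) (ih rs (fun r' hr' => h r' (by simp [hr'])))

theorem length_unitL (S : ℤ) (j d : ℕ) : (unitL S j d).length = j + 1 := by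
  induction j with
  | zero => rcases d with _ | _ | d <;> simp [unitL]
  | succ j ih => simp [unitL, ih]

theorem row_bound (S κ ρ : ℤ) (n : ℕ) (hS : 0 < S) (hκ : 0 ≤ κ) (hρ : 0 ≤ ρ)
    (Js : List (List (Tri ℤ)))
    (hJ : ∀ r ∈ Js, r.length ≤ n) (os : List ℤ) (bas : List (Bool × ℤ))
    (hlo : os.length = Js.length) (hlb : bas.length = Js.length)
    (z : ℕ → Tri ℝ) (hz : ∀ k, k < n → (z k).le ρ)
    (hg : Good bas (Js.map (fun r => ev r z)))
    (j d : ℕ) (hj : j < n) (ws : List ℤ)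
    (h : rowOK S κ ρ Js os (sumAbs (comb os Js)) bas j d ws = true) :
    |coord (z j) d| < ρ := by
  simp only [rowOK, Bool.and_eq_true, decide_eq_true_eq] at h
  obtain ⟨⟨h1, h2⟩, h3⟩ := h
  have hρ' : (0 : ℝ) ≤ ρ := by exact_mod_cast hρ
  have hb := lin_bound κ hκ ws os bas (Js.map (fun r => ev r z)) (by simpa using h1)
    (by simpa using hlo) (by simpa using hlb) hg h2
  have ho : |lin os (Js.map (fun r => ev r z))| ≤ (sumAbs (comb os Js) : ℝ) * ρ := by
    rw [← ev_comb]
    apply abs_ev_le _ _ _ hρ'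
    intro k hk
    exact hz k (lt_of_lt_of_le hk (length_comb_le _ _ _ hJ))
  have hr : |ev (addL (comb ws Js) (unitL (-S) j d)) z| ≤
      (sumAbs (addL (comb ws Js) (unitL (-S) j d)) : ℝ) * ρ := by
    apply abs_ev_le _ _ _ hρ'
    intro k hk
    apply hz k
    rw [length_addL, length_unitL] at hk
    have := length_comb_le ws Js n hJ
    omega
  rw [ev_addL, ev_comb, ev_unitL] at hr
  have h3' : (κ : ℝ) * ((sumAbs (comb os Js) : ℝ) * ρ) + tot κ ws os bas
      + sumAbs (addL (comb ws Js) (unitL (-S) j d)) * ρ < S * ρ := by exact_mod_cast h3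
  have hκ' : (0 : ℝ) ≤ κ := by exact_mod_cast hκ
  have hS' : (0 : ℝ) < S := by exact_mod_cast hS
  have ho2 : (κ : ℝ) * lin os (Js.map (fun r => ev r z)) ≤ κ * ((sumAbs (comb os Js) : ℝ) * ρ) :=
    mul_le_mul_of_nonneg_left (le_trans (le_abs_self _) ho) hκ'
  have hfin : (S : ℝ) * |coord (z j) d| < S * ρ := by
    have : (S : ℝ) * |coord (z j) d| = |(S : ℝ) * coord (z j) d| := by
      rw [abs_mul, abs_of_pos hS']
    rw [this]
    push_cast at hr
    rw [abs_lt]
    rw [abs_le] at hr hb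
    constructor <;> nlinarith [hr.1, hr.2, hb.1, hb.2]
  exact lt_of_mul_lt_mul_left hfin hS'.le

end Pool.Agent.Locked
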