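import Pool.Agent.Locked.Check2
import Pool.Agent.Locked.Check3

set_option autoImplicit false

/-!
A locked simple unit chain with 18 links in three-space.
-/

namespace Pool.Agent.Locked

open Set

/-- the locked chain -/
noncomputable def lockedChain : ℕ → E := chain U0

theorem all_range {n : ℕ} {f : ℕ → Bool} (h : (List.range n).all f = true) {j : ℕ} (hj : j < n) :
    f j = true := List.all_eq_true.mp h j (List.mem_range.mpr hj)

theorem len_all : ∀ j, j < 18 → lenOK P0.N (U0 j) = true := fun _ hj => all_range len0 hj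

theorem hN0 : (1 : ℤ) < P0.N := by decide +kernel

theorem hA0 : P0.A < 18 := by decide +kernel

theorem hB0 : P0.B < 18 := by decide +kernel

theorem hρ12 : (12 : ℤ) ≤ P0.ρ := by decide +kernel

theorem hS0 : (0 : ℤ) < S0 := by decide +kernel

theorem hκ0 : (0 : ℤ) ≤ kap0 := by decide +kernel

theorem locked_unit : Unit 18 lockedChain := chain_unit hN0 U0 18 len_all

theorem locked_disj : Disj 18 lockedChain := by
  intro i j hij hj
  obtain ⟨L, rfl⟩ : ∃ L, j = i + 1 + L := ⟨j - (i + 1), by omega⟩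
  have hL : 1 ≤ L := by omega
  have h := all_range (all_range sep0 (show i < 18 by omega)) (show L < 18 by omega)
  simp only [Bool.or_eq_true, decide_eq_true_eq] at h
  rcases h with (h | h) | h
  · omega
  · omega
  · exact sep_disjoint hN0 U0 18 len_all _ i L hj h

theorem locked_adj (i : ℕ) (hi : i + 1 < 18) :
    segment ℝ (lockedChain i) (lockedChain (i + 1)) ∩
      segment ℝ (lockedChain (i + 1)) (lockedChain (i + 2)) = {lockedChain (i + 1)} :=
  adj_inter hN0 U0 18 len_all i hi (all_range adj0 (show i < 17 by omega))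

theorem cell0 (x : ℕ → Tri ℝ) (hz : ∀ k, k < 18 → (dev X0 x k).le P0.ρ)
    (hx : ∀ r ∈ rows0, r.Holds P0 x) : ∀ k, k < 18 → (dev X0 x k).lt P0.ρ :=
  cell P0 18 X0 rows0 J0 om0 bas0 S0 kap0 som0 Ws0 (by have := hN0; omega)
    (by have := hρ12; omega) hS0 hκ0 gaugeZ0 rowsok0 hJ0 hbas0 hom0 hWs0 hsom0 hOK0 x hz hx

theorem coords_congr (P : Par) (n : ℕ) (hA : P.A < n) (hB : P.B < n) (p q : ℕ → E)
    (h : ∀ i, i ≤ n → p i = q i) (j : ℕ) (hj : j < n) : coords P p j = coords P q j := by
  have e : ∀ i, i < n → edge p i = edge q i := by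
    intro i hi
    rw [edge, edge, h (i + 1) (by omega), h i (by omega)]
  rw [coords, coords, e _ hA, e _ hB, e _ hj]

theorem psum_congr (u v : ℕ → Tri ℝ) (a k : ℕ) (h : ∀ i, a ≤ i → i < a + k → u i = v i) :
    psum u a k = psum v a k := by
  induction k with
  | zero => rfl
  | succ k ih =>
    simp only [psum]
    rw [ih (fun i hi hi' => h i hi (by omega)), h (a + k) (by omega) (by omega)]

/-- The chain `lockedChain` cannot be straightened. -/
theorem locked_main (γ : ℝ → ℕ → E) (hγ : Continuous γ) (h0 : ∀ i, i ≤ 18 → γ 0 i = lockedChain i)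
    (hs : ∀ t ∈ Icc (0 : ℝ) 1, Unit 18 (γ t) ∧ Disj 18 (γ t)) (v : E) (hv : ‖v‖ = 1)
    (h1 : ∀ i, i ≤ 18 → γ 1 i = γ 1 0 + (i : ℝ) • v) : False := by
  have hinit : ∀ k, k < 18 → (dev X0 (coords P0 lockedChain) k).le 12 := fun k hk =>
    init_close P0 U0 X0 hN0 k (len_all _ hA0) (len_all _ hB0) (len_all _ hk) (all_range init0 hk)
  have hc0 : ∀ k, k < 18 → coords P0 (γ 0) k = coords P0 lockedChain k := fun k hk =>
    coords_congr P0 18 hA0 hB0 _ _ h0 k hk
  have hinit' : ∀ k, k < 18 → (dev X0 (coords P0 (γ 0)) k).le 12 := by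
    intro k hk
    have := hinit k hk
    simp only [dev] at this ⊢
    rw [hc0 k hk]
    exact this
  have hρ' : (12 : ℝ) ≤ P0.ρ := by exact_mod_cast hρ12
  have hstay := stays P0 18 X0 rows0 (by have := hN0; omega) hA0 hB0 cc0 cell0 cok0 γ hγ hs
    (fun k hk => by
      obtain ⟨a, b, c⟩ := hinit' k hk
      exact ⟨a.trans hρ', b.trans hρ', c.trans hρ'⟩)
    (fun r hr => sgn_init X0 _ 18 hinit' r (List.all_eq_true.mp sgn0 r hr) P0
      (List.all_eq_true.mp cok0 r hr))
    1 (by simp) P0.A hA0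
  have he : ∀ i, i < 18 → edge (γ 1) i = tri v := by
    intro i hi
    rw [edge, h1 (i + 1) (by omega), h1 i (by omega)]
    congr 1
    push_cast
    module
  have hvv : Tri.dot (tri v) (tri v) = 1 := by
    have := EuclideanSpace.norm_sq_eq v
    rw [hv, Fin.sum_univ_three] at this
    simp only [Real.norm_eq_abs, sq_abs, one_pow] at this
    simp only [tri, Tri.dot]
    linarith
  have hy := hstay.2.1
  simp only [dev, Tri.sub, coords, mx, Tri.toR] at hy
  rw [he _ hA0, he _ hB0, hvv, mul_one] at hy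
  have hcc : |((X0 P0.A).y : ℝ)| + P0.ρ < P0.N := by exact_mod_cast cc0
  have h5 := le_abs_self ((X0 P0.A).y : ℝ)
  have h6 := le_abs_self ((P0.N : ℝ) - (X0 P0.A).y)
  linarith

end Pool.Agent.Locked
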