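import Pool.Agent.Locked.Lin

set_option autoImplicit false

namespace Pool.Agent.Locked

/-- The rows of the certificate: contacts between bar `a` and bar `a+1+L` (with a sign), norm
equations, gauge equations. -/
inductive Row
  | C (a L : ℕ) (neg : Bool)
  | F (j : ℕ)
  | G (k : ℕ)

structure Par where
  N : ℤ
  ρ : ℤ
  A : ℕ
  B : ℕ

/-- place a triple at index `j` -/
def at_ (j : ℕ) (p : Tri ℤ) : List (Tri ℤ) := List.replicate j Tri.zero ++ [p]

def sgn (neg : Bool) : ℤ := if neg then -1 else 1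

def rowC (X : ℕ → Tri ℤ) (a L : ℕ) : List (Tri ℤ) :=
  List.replicate a Tri.zero ++
    (Tri.cross (X (a + 1 + L)) (psum X (a + 1) L)) ::
      (List.replicate L (Tri.cross (X a) (X (a + 1 + L))) ++
        [Tri.cross (psum X (a + 1) L) (X a)])

def Row.J (P : Par) (X : ℕ → Tri ℤ) : Row → List (Tri ℤ)
  | .C a L neg => smulL (sgn neg) (rowC X a L)
  | .F j => addL (at_ j ⟨2 * P.N * (X j).x - 2 * (X j).y * (X P.A).y,
        2 * P.N * (X j).y - 2 * (X j).x * (X P.A).y, 2 * P.N * (X j).z⟩)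
      (at_ P.A ⟨0, 2 * P.N * (X P.A).y - 2 * (X j).x * (X j).y, 0⟩)
  | .G 0 => at_ P.A ⟨1, 0, 0⟩
  | .G 1 => at_ P.A ⟨0, 0, 1⟩
  | .G 2 => at_ P.B ⟨0, 1, 0⟩
  | .G 3 => at_ P.B ⟨0, 0, 1⟩
  | .G _ => addL (at_ P.A ⟨0, 1, 0⟩) (at_ P.B ⟨-1, 0, 0⟩)

/-- `det` as used for contacts -/
def cdet {R : Type} [Mul R] [Sub R] [Add R] [Zero R] (X : ℕ → Tri R) (a L : ℕ) : R :=
  Tri.dot (Tri.cross (X a) (X (a + 1 + L))) (psum X (a + 1) L)

/-- bound for the second and third order terms of a contact determinant -/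
def errC (X : ℕ → Tri ℤ) (ρ : ℤ) (a L : ℕ) : ℤ :=
  2 * ρ ^ 2 * (psum X (a + 1) L).norm1 + 2 * L * ρ ^ 2 * ((X a).norm1 + (X (a + 1 + L)).norm1)
    + 6 * L * ρ ^ 3

def nrmF (N : ℤ) (a b d c : ℤ) : ℤ := N * (a ^ 2 + b ^ 2 + d ^ 2 + c ^ 2) - 2 * a * b * c - N ^ 3

def Row.B (P : Par) (X : ℕ → Tri ℤ) : Row → Bool × ℤ
  | .C a L neg => (true, sgn neg * cdet X a L + errC X P.ρ a L)
  | .F j => (false, |nrmF P.N (X j).x (X j).y (X j).z (X P.A).y| + 4 * P.N * P.ρ ^ 2 +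
      2 * P.ρ ^ 2 * (|(X j).x| + |(X j).y| + |(X P.A).y|) + 2 * P.ρ ^ 3)
  | .G _ => (false, 0)

/-- The gauge conditions hold for the integer data. -/
def gaugeZ (P : Par) (X : ℕ → Tri ℤ) : Bool :=
  decide ((X P.A).x = P.N ∧ (X P.A).z = 0 ∧ (X P.B).y = P.N ∧ (X P.B).z = 0 ∧
    (X P.A).y = (X P.B).x)

/-- The gauge conditions for a real point. -/
def Gauge (P : Par) (x : ℕ → Tri ℝ) : Prop :=
  (x P.A).x = P.N ∧ (x P.A).z = 0 ∧ (x P.B).y = P.N ∧ (x P.B).z = 0 ∧ (x P.A).y = (x P.B).x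

def NormEq (P : Par) (x : ℕ → Tri ℝ) (j : ℕ) : Prop :=
  (P.N : ℝ) * ((x j).x ^ 2 + (x j).y ^ 2 + (x j).z ^ 2 + (x P.A).y ^ 2)
    - 2 * (x j).x * (x j).y * (x P.A).y - (P.N : ℝ) ^ 3 = 0

def Row.Holds (P : Par) (x : ℕ → Tri ℝ) : Row → Prop
  | .C a L neg => 0 ≤ (sgn neg : ℝ) * cdet x a L
  | .F j => NormEq P x j
  | .G _ => Gauge P x

def dev (X : ℕ → Tri ℤ) (x : ℕ → Tri ℝ) (j : ℕ) : Tri ℝ := Tri.sub (x j) (X j).toR

theorem ev_append (v w : List (Tri ℤ)) (z : ℕ → Tri ℝ) :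
    ev (v ++ w) z = ev v z + ev w (fun k => z (k + v.length)) := by
  induction v generalizing z with
  | nil => simp [ev]
  | cons a v ih =>
    simp only [List.cons_append, ev, ih, List.length_cons]
    have : (fun k => z (k + v.length + 1)) = (fun k => z (k + (v.length + 1))) := by
      funext k; congr 1
    rw [this]; ring

theorem ev_replicate_zero (a : ℕ) (z : ℕ → Tri ℝ) :
    ev (List.replicate a Tri.zero) z = 0 := by
  induction a generalizing z with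
  | zero => simp [ev]
  | succ a ih =>
    rw [List.replicate_succ, ev, ih]
    simp [Tri.dot, Tri.toR, Tri.zero]

theorem psum_succ' (z : ℕ → Tri ℝ) (a k : ℕ) :
    psum z a (k + 1) = Tri.add (z a) (psum (fun i => z (i + 1)) a k) := by
  induction k with
  | zero => simp [psum, Tri.add, Tri.zero]
  | succ k ih =>
    rw [psum, ih]
    simp only [psum, Tri.add]
    have : a + (k + 1) = a + k + 1 := by ring
    rw [this]
    ext <;> simp <;> ring

theorem psum_shift (z : ℕ → Tri ℝ) (a k s : ℕ) :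
    psum (fun i => z (i + s)) a k = psum z (a + s) k := by
  induction k with
  | zero => simp [psum]
  | succ k ih =>
    simp only [psum, ih]
    have : a + k + s = a + s + k := by ring
    rw [this]

theorem ev_replicate (L : ℕ) (g : Tri ℤ) (z : ℕ → Tri ℝ) :
    ev (List.replicate L g) z = Tri.dot g.toR (psum z 0 L) := by
  induction L generalizing z with
  | zero => simp [ev, psum, Tri.dot, Tri.zero]
  | succ L ih =>
    rw [List.replicate_succ, ev, ih, psum_succ']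
    simp only [Tri.dot, Tri.add]
    ring

theorem ev_at (j : ℕ) (p : Tri ℤ) (z : ℕ → Tri ℝ) : ev (at_ j p) z = Tri.dot p.toR (z j) := by
  simp [at_, ev_append, ev_replicate_zero, ev]

theorem ev_rowC (X : ℕ → Tri ℤ) (a L : ℕ) (z : ℕ → Tri ℝ) :
    ev (rowC X a L) z =
      Tri.dot (Tri.cross (X (a + 1 + L)) (psum X (a + 1) L)).toR (z a) +
      Tri.dot (Tri.cross (X a) (X (a + 1 + L))).toR (psum z (a + 1) L) +
      Tri.dot (Tri.cross (psum X (a + 1) L) (X a)).toR (z (a + 1 + L)) := by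
  rw [rowC, ev_append, ev_replicate_zero, ev, ev_append, ev_replicate]
  simp only [List.length_replicate, zero_add, ev, add_zero]
  have h1 : psum (fun k => z (k + 1 + a)) 0 L = psum z (a + 1) L := by
    have : (fun k => z (k + 1 + a)) = (fun k => z (k + (a + 1))) := by
      funext k; congr 1; ring
    rw [this, psum_shift]; simp
  rw [h1]
  have h2 : L + 1 + a = a + 1 + L := by ring
  rw [h2]
  ring

theorem psum_toR (X : ℕ → Tri ℤ) (a k : ℕ) :
    (psum X a k).toR = psum (fun i => (X i).toR) a k := by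
  induction k with
  | zero => simp [psum, Tri.toR, Tri.zero]
  | succ k ih =>
    simp only [psum]
    rw [← ih]
    simp [Tri.toR, Tri.add]

theorem psum_sub (x y : ℕ → Tri ℝ) (a k : ℕ) :
    psum (fun i => Tri.sub (x i) (y i)) a k = Tri.sub (psum x a k) (psum y a k) := by
  induction k with
  | zero => simp [psum, Tri.sub, Tri.zero]
  | succ k ih =>
    simp only [psum, ih]
    ext <;> simp [Tri.sub, Tri.add] <;> ring

theorem psum_le (z : ℕ → Tri ℝ) (a k : ℕ) (b : ℝ) (h : ∀ i, a ≤ i → i < a + k → (z i).le b) :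
    (psum z a k).le (k * b) := by
  induction k with
  | zero => simp [psum, Tri.le, Tri.zero]
  | succ k ih =>
    obtain ⟨h1, h2, h3⟩ := ih (fun i hi hi' => h i hi (by omega))
    obtain ⟨g1, g2, g3⟩ := h (a + k) (by omega) (by omega)
    simp only [psum, Tri.le, Tri.add]
    push_cast
    refine ⟨?_, ?_, ?_⟩
    · exact (abs_add_le _ _).trans (by linarith)
    · exact (abs_add_le _ _).trans (by linarith)
    · exact (abs_add_le _ _).trans (by linarith)

theorem abs_mul3_le {a b c A B C : ℝ} (ha : |a| ≤ A) (hb : |b| ≤ B) (hc : |c| ≤ C) :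
    |a * b * c| ≤ A * B * C := by
  have hA : 0 ≤ A := (abs_nonneg _).trans ha
  have hB : 0 ≤ B := (abs_nonneg _).trans hb
  rw [abs_mul, abs_mul]
  exact mul_le_mul (mul_le_mul ha hb (abs_nonneg _) hA) hc (abs_nonneg _) (mul_nonneg hA hB)

/-- `|det(u,v,w)| ≤ 2 a b |w|_1` -/
theorem det_le (u v w : Tri ℝ) (a b : ℝ) (hu : u.le a) (hv : v.le b) :
    |Tri.dot (Tri.cross u v) w| ≤ 2 * a * b * (|w.x| + |w.y| + |w.z|) := by
  obtain ⟨u1, u2, u3⟩ := hu
  obtain ⟨v1, v2, v3⟩ := hv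
  have e : Tri.dot (Tri.cross u v) w =
      u.y * v.z * w.x + -(u.z * v.y * w.x) + (u.z * v.x * w.y) + -(u.x * v.z * w.y) +
      (u.x * v.y * w.z) + -(u.y * v.x * w.z) := by
    simp only [Tri.dot, Tri.cross]; ring
  rw [e]
  have h1 := abs_mul3_le u2 v3 (le_refl |w.x|)
  have h2 := abs_mul3_le u3 v2 (le_refl |w.x|)
  have h3 := abs_mul3_le u3 v1 (le_refl |w.y|)
  have h4 := abs_mul3_le u1 v3 (le_refl |w.y|)
  have h5 := abs_mul3_le u1 v2 (le_refl |w.z|)
  have h6 := abs_mul3_le u2 v1 (le_refl |w.z|)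
  calc _ ≤ |u.y * v.z * w.x| + |-(u.z * v.y * w.x)| + |u.z * v.x * w.y| + |-(u.x * v.z * w.y)| +
      |u.x * v.y * w.z| + |-(u.y * v.x * w.z)| := by
        refine (abs_add_le _ _).trans (add_le_add ?_ le_rfl)
        refine (abs_add_le _ _).trans (add_le_add ?_ le_rfl)
        refine (abs_add_le _ _).trans (add_le_add ?_ le_rfl)
        refine (abs_add_le _ _).trans (add_le_add ?_ le_rfl)
        exact (abs_add_le _ _)
    _ ≤ _ := by
        rw [abs_neg, abs_neg, abs_neg]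
        linarith

theorem norm1_cast (p : Tri ℤ) : ((p.norm1 : ℤ) : ℝ) = |p.toR.x| + |p.toR.y| + |p.toR.z| := by
  simp [Tri.norm1, Tri.toR]

theorem cdet_expand (P X w δP δX δw : Tri ℝ) :
    Tri.dot (Tri.cross (Tri.add P δP) (Tri.add X δX)) (Tri.add w δw) =
      Tri.dot (Tri.cross P X) w +
      (Tri.dot (Tri.cross X w) δP + Tri.dot (Tri.cross P X) δw + Tri.dot (Tri.cross w P) δX) +
      (Tri.dot (Tri.cross δP δX) w + Tri.dot (Tri.cross δw δP) X + Tri.dot (Tri.cross δX δw) P +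
        Tri.dot (Tri.cross δP δX) δw) := by
  simp only [Tri.dot, Tri.cross, Tri.add]
  ring

theorem cross_toR (p q : Tri ℤ) : (Tri.cross p q).toR = Tri.cross p.toR q.toR := by
  simp [Tri.cross, Tri.toR]

theorem dot_toR (p q : Tri ℤ) : ((Tri.dot p q : ℤ) : ℝ) = Tri.dot p.toR q.toR := by
  simp [Tri.dot, Tri.toR]

theorem contact_expand (X : ℕ → Tri ℤ) (x : ℕ → Tri ℝ) (ρ : ℤ) (hρ : 0 ≤ ρ) (a L : ℕ)
    (hz : ∀ k, k < a + 1 + L + 1 → (dev X x k).le ρ) :
    |cdet x a L - cdet X a L - ev (rowC X a L) (dev X x)| ≤ errC X ρ a L := by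
  have hρ' : (0 : ℝ) ≤ ρ := by exact_mod_cast hρ
  set δa := dev X x a with hδa
  set δb := dev X x (a + 1 + L) with hδb
  set ζ := psum (dev X x) (a + 1) L with hζ
  have e1 : x a = Tri.add (X a).toR δa := by
    ext <;> simp [hδa, dev, Tri.add, Tri.sub, Tri.toR]
  have e2 : x (a + 1 + L) = Tri.add (X (a + 1 + L)).toR δb := by
    ext <;> simp [hδb, dev, Tri.add, Tri.sub, Tri.toR]
  have e3 : psum x (a + 1) L = Tri.add (psum X (a + 1) L).toR ζ := by
    have : ζ = Tri.sub (psum x (a + 1) L) (psum (fun i => (X i).toR) (a + 1) L) := by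
      rw [hζ, ← psum_sub]; rfl
    rw [this, psum_toR]
    ext <;> simp [Tri.add, Tri.sub]
  have h1 : δa.le ρ := hz a (by omega)
  have h2 : δb.le ρ := hz (a + 1 + L) (by omega)
  have h3 : ζ.le (L * ρ) := psum_le _ _ _ _ (fun i hi hi' => hz i (by omega))
  rw [ev_rowC, ← hζ, ← hδa, ← hδb]
  unfold cdet
  rw [e1, e2, e3, cdet_expand, cross_toR, cross_toR, cross_toR, dot_toR, cross_toR]
  set P := (X a).toR
  set Q := (X (a + 1 + L)).toR
  set r := (psum X (a + 1) L).toR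
  have q1 := det_le δa δb r ρ ρ h1 h2
  have q2 := det_le ζ δa Q (L * ρ) ρ h3 h1
  have q3 := det_le δb ζ P ρ (L * ρ) h2 h3
  have q4 := det_le δa δb ζ ρ ρ h1 h2
  have hL : (0 : ℝ) ≤ L := Nat.cast_nonneg _
  have q5 : 2 * (ρ : ℝ) * ρ * (|ζ.x| + |ζ.y| + |ζ.z|) ≤ 6 * L * ρ ^ 3 := by
    obtain ⟨g1, g2, g3⟩ := h3
    have : |ζ.x| + |ζ.y| + |ζ.z| ≤ 3 * (L * ρ) := by linarith
    calc 2 * (ρ : ℝ) * ρ * (|ζ.x| + |ζ.y| + |ζ.z|) ≤ 2 * (ρ : ℝ) * ρ * (3 * (L * ρ)) :=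
          mul_le_mul_of_nonneg_left this (by positivity)
      _ = 6 * L * ρ ^ 3 := by ring
  have herr : (errC X ρ a L : ℝ) = 2 * ρ ^ 2 * (|r.x| + |r.y| + |r.z|) +
      2 * L * ρ ^ 2 * ((|P.x| + |P.y| + |P.z|) + (|Q.x| + |Q.y| + |Q.z|)) + 6 * L * ρ ^ 3 := by
    unfold errC
    push_cast
    rw [norm1_cast, norm1_cast, norm1_cast]
  rw [herr]
  have : (Tri.dot (Tri.cross P Q) r +
      (Tri.dot (Tri.cross Q r) δa + Tri.dot (Tri.cross P Q) ζ + Tri.dot (Tri.cross r P) δb) +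
      (Tri.dot (Tri.cross δa δb) r + Tri.dot (Tri.cross ζ δa) Q + Tri.dot (Tri.cross δb ζ) P +
        Tri.dot (Tri.cross δa δb) ζ) - Tri.dot (Tri.cross P Q) r -
      (Tri.dot (Tri.cross Q r) δa + Tri.dot (Tri.cross P Q) ζ + Tri.dot (Tri.cross r P) δb)) =
      Tri.dot (Tri.cross δa δb) r + Tri.dot (Tri.cross ζ δa) Q + Tri.dot (Tri.cross δb ζ) P +
        Tri.dot (Tri.cross δa δb) ζ := by ring
  rw [this]
  calc _ ≤ |Tri.dot (Tri.cross δa δb) r| + |Tri.dot (Tri.cross ζ δa) Q| +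
        |Tri.dot (Tri.cross δb ζ) P| + |Tri.dot (Tri.cross δa δb) ζ| := by
        refine (abs_add_le _ _).trans (add_le_add ?_ le_rfl)
        refine (abs_add_le _ _).trans (add_le_add ?_ le_rfl)
        exact (abs_add_le _ _)
    _ ≤ _ := by nlinarith [q1, q2, q3, q4, q5]

theorem norm_expand (P : Par) (X : ℕ → Tri ℤ) (x : ℕ → Tri ℝ) (hN : 0 ≤ P.N) (j : ℕ)
    (hj : (dev X x j).le P.ρ) (hA : (dev X x P.A).le P.ρ) (hx : NormEq P x j) :
    |ev (Row.J P X (.F j)) (dev X x)| ≤ ((Row.B P X (.F j)).2 : ℝ) := by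
  obtain ⟨h1, h2, h3⟩ := hj
  obtain ⟨_, g2, _⟩ := hA
  set δa := (dev X x j).x with hδa
  set δb := (dev X x j).y with hδb
  set δd := (dev X x j).z with hδd
  set δc := (dev X x P.A).y with hδc
  have e1 : (x j).x = (X j).x + δa := by simp [hδa, dev, Tri.sub, Tri.toR]
  have e2 : (x j).y = (X j).y + δb := by simp [hδb, dev, Tri.sub, Tri.toR]
  have e3 : (x j).z = (X j).z + δd := by simp [hδd, dev, Tri.sub, Tri.toR]
  have e4 : (x P.A).y = (X P.A).y + δc := by simp [hδc, dev, Tri.sub, Tri.toR]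
  unfold NormEq at hx
  rw [e1, e2, e3, e4] at hx
  have hρ0 : (0 : ℝ) ≤ P.ρ := (abs_nonneg _).trans h1
  have hev : ev (Row.J P X (.F j)) (dev X x) =
      (2 * P.N * (X j).x - 2 * (X j).y * (X P.A).y) * δa +
      (2 * P.N * (X j).y - 2 * (X j).x * (X P.A).y) * δb + 2 * P.N * (X j).z * δd +
      (2 * P.N * (X P.A).y - 2 * (X j).x * (X j).y) * δc := by
    simp only [Row.J, ev_addL, ev_at, Tri.dot, Tri.toR]
    push_cast
    rw [← hδa, ← hδb, ← hδc, ← hδd]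
    ring
  have key : ev (Row.J P X (.F j)) (dev X x) =
      -(nrmF P.N (X j).x (X j).y (X j).z (X P.A).y : ℝ) +
      -((P.N : ℝ) * δa ^ 2) + -((P.N : ℝ) * δb ^ 2) + -((P.N : ℝ) * δc ^ 2) +
      -((P.N : ℝ) * δd ^ 2) + 2 * (δa * δb * (X P.A).y) + 2 * (δa * δc * (X j).y) +
      2 * (δb * δc * (X j).x) + 2 * (δa * δb * δc) := by
    rw [hev]
    unfold nrmF
    push_cast
    linear_combination hx
  have hN' : (0 : ℝ) ≤ P.N := by exact_mod_cast hN
  have sq : ∀ t : ℝ, |t| ≤ P.ρ → t ^ 2 ≤ (P.ρ : ℝ) ^ 2 := by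
    intro t ht
    rw [← sq_abs]
    exact pow_le_pow_left₀ (abs_nonneg _) ht 2
  have s1 := sq _ h1
  have s2 := sq _ h2
  have s3 := sq _ h3
  have s4 := sq _ g2
  have m1 := abs_mul3_le h1 h2 (le_refl |((X P.A).y : ℝ)|)
  have m2 := abs_mul3_le h1 g2 (le_refl |((X j).y : ℝ)|)
  have m3 := abs_mul3_le h2 g2 (le_refl |((X j).x : ℝ)|)
  have m4 := abs_mul3_le h1 h2 g2
  have hB : ((Row.B P X (.F j)).2 : ℝ) =
      |(nrmF P.N (X j).x (X j).y (X j).z (X P.A).y : ℝ)| + 4 * P.N * P.ρ ^ 2 +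
      2 * P.ρ ^ 2 * (|((X j).x : ℝ)| + |((X j).y : ℝ)| + |((X P.A).y : ℝ)|) +
        2 * (P.ρ : ℝ) ^ 3 := by
    simp only [Row.B]
    push_cast
    rfl
  rw [hB, key]
  have n1 := mul_le_mul_of_nonneg_left s1 hN'
  have n2 := mul_le_mul_of_nonneg_left s2 hN'
  have n3 := mul_le_mul_of_nonneg_left s3 hN'
  have n4 := mul_le_mul_of_nonneg_left s4 hN'
  have p1 : 0 ≤ (P.N : ℝ) * δa ^ 2 := by positivity
  have p2 : 0 ≤ (P.N : ℝ) * δb ^ 2 := by positivity
  have p3 : 0 ≤ (P.N : ℝ) * δc ^ 2 := by positivity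
  have p4 : 0 ≤ (P.N : ℝ) * δd ^ 2 := by positivity
  have hF := le_abs_self (nrmF P.N (X j).x (X j).y (X j).z (X P.A).y : ℝ)
  have hF' := neg_abs_le (nrmF P.N (X j).x (X j).y (X j).z (X P.A).y : ℝ)
  rw [abs_le] at m1 m2 m3 m4 ⊢
  obtain ⟨m1a, m1b⟩ := m1
  obtain ⟨m2a, m2b⟩ := m2
  obtain ⟨m3a, m3b⟩ := m3
  obtain ⟨m4a, m4b⟩ := m4
  constructor
  · linarith
  · linarith

def Row.maxIdx (P : Par) : Row → ℕ
  | .C a L _ => a + 1 + L
  | .F j => max j P.A
  | .G _ => max P.A P.B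

theorem length_rowJ (P : Par) (X : ℕ → Tri ℤ) (r : Row) (n : ℕ) (h : r.maxIdx P < n) :
    (r.J P X).length ≤ n := by
  rcases r with ⟨a, L, neg⟩ | j | k
  · simp only [Row.maxIdx] at h
    simp [Row.J, smulL, rowC]; omega
  · simp only [Row.maxIdx] at h
    simp [Row.J, length_addL, at_]; omega
  · simp only [Row.maxIdx] at h
    rcases k with _ | _ | _ | _ | k <;> simp [Row.J, length_addL, at_] <;> omega

/-- the integer checks needed for a row -/
def Row.ok (P : Par) (X : ℕ → Tri ℤ) (n : ℕ) (r : Row) : Bool :=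
  decide (r.maxIdx P < n) && decide (0 ≤ (r.B P X).2)

theorem row_good (P : Par) (X : ℕ → Tri ℤ) (x : ℕ → Tri ℝ) (n : ℕ) (hN : 0 ≤ P.N) (hρ : 0 ≤ P.ρ)
    (hgZ : gaugeZ P X = true)
    (hz : ∀ k, k < n → (dev X x k).le P.ρ) (r : Row) (hr : r.ok P X n = true)
    (hx : r.Holds P x) :
    0 ≤ (r.B P X).2 ∧ (-((r.B P X).2 : ℝ) ≤ ev (r.J P X) (dev X x)) ∧
      ((r.B P X).1 = false → ev (r.J P X) (dev X x) ≤ (r.B P X).2) := by
  simp only [Row.ok, Bool.and_eq_true, decide_eq_true_eq] at hr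
  obtain ⟨hr1, hr2⟩ := hr
  refine ⟨hr2, ?_⟩
  rcases r with ⟨a, L, neg⟩ | j | k
  · simp only [Row.maxIdx] at hr1
    refine ⟨?_, by simp [Row.B]⟩
    have h := contact_expand X x P.ρ hρ a L (fun k hk => hz k (by omega))
    simp only [Row.Holds] at hx
    simp only [Row.B, Row.J, ev_smulL]
    push_cast
    rw [abs_le] at h
    rcases neg with _ | _
    · simp only [sgn] at hx ⊢
      norm_num at hx ⊢
      linarith [h.1, h.2]
    · simp only [sgn] at hx ⊢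
      norm_num at hx ⊢
      linarith [h.1, h.2]
  · simp only [Row.maxIdx] at hr1
    have h := norm_expand P X x hN j (hz j (by omega)) (hz P.A (by omega)) hx
    rw [abs_le] at h
    exact ⟨h.1, fun _ => h.2⟩
  · simp only [gaugeZ, decide_eq_true_eq] at hgZ
    obtain ⟨z1, z2, z3, z4, z5⟩ := hgZ
    obtain ⟨g1, g2, g3, g4, g5⟩ := hx
    have key : ev (Row.J P X (.G k)) (dev X x) = 0 := by
      have z5' : ((X P.A).y : ℝ) = (X P.B).x := by exact_mod_cast z5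
      rcases k with _ | _ | _ | _ | k <;>
        simp [Row.J, ev_addL, ev_at, Tri.dot, Tri.toR, dev, Tri.sub, g1, g2, g3, g4, g5, z1, z2,
          z3, z4, z5']
    simp [Row.B, key]

theorem good_map (P : Par) (X : ℕ → Tri ℤ) (x : ℕ → Tri ℝ) (n : ℕ) (hN : 0 ≤ P.N)
    (hρ : 0 ≤ P.ρ) (hgZ : gaugeZ P X = true)
    (hz : ∀ k, k < n → (dev X x k).le P.ρ) (rows : List Row)
    (hr : rows.all (Row.ok P X n) = true)
    (hx : ∀ r ∈ rows, r.Holds P x) :
    Good (rows.map (Row.B P X)) ((rows.map (Row.J P X)).map (fun r => ev r (dev X x))) := by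
  induction rows with
  | nil => simp [Good]
  | cons r rows ih =>
    simp only [List.all_cons, Bool.and_eq_true] at hr
    simp only [List.map_cons, Good]
    obtain ⟨h1, h2, h3⟩ := row_good P X x n hN hρ hgZ hz r hr.1 (hx r (by simp))
    exact ⟨h1, h2, h3, ih hr.2 (fun r' hr' => hx r' (by simp [hr']))⟩

/-- check all the coordinates, `Ws` is indexed by `3 j + d` -/
def rowsOK (S κ ρ : ℤ) (Js : List (List (Tri ℤ))) (os : List ℤ) (sω : ℤ)
    (bas : List (Bool × ℤ)) : ℕ → List (List ℤ × List ℤ × List ℤ) → Bool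
  | _, [] => true
  | j, (w1, w2, w3) :: Ws =>
    rowOK S κ ρ Js os sω bas j 0 w1 && (rowOK S κ ρ Js os sω bas j 1 w2 &&
      (rowOK S κ ρ Js os sω bas j 2 w3 && rowsOK S κ ρ Js os sω bas (j + 1) Ws))

theorem rowsOK_get (S κ ρ : ℤ) (Js : List (List (Tri ℤ))) (os : List ℤ) (sω : ℤ)
    (bas : List (Bool × ℤ)) (j0 : ℕ) (Ws : List (List ℤ × List ℤ × List ℤ))
    (h : rowsOK S κ ρ Js os sω bas j0 Ws = true) (i : ℕ) (hi : i < Ws.length) :
    ∃ w1 w2 w3, rowOK S κ ρ Js os sω bas (j0 + i) 0 w1 = true ∧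
      rowOK S κ ρ Js os sω bas (j0 + i) 1 w2 = true ∧
      rowOK S κ ρ Js os sω bas (j0 + i) 2 w3 = true := by
  induction Ws generalizing j0 i with
  | nil => simp at hi
  | cons w Ws ih =>
    obtain ⟨w1, w2, w3⟩ := w
    simp only [rowsOK, Bool.and_eq_true] at h
    rcases i with _ | i
    · exact ⟨w1, w2, w3, h.1, h.2.1, h.2.2.1⟩
    · obtain ⟨v1, v2, v3, hv⟩ := ih (j0 + 1) h.2.2.2 i (by simpa using hi)
      have e : j0 + 1 + i = j0 + (i + 1) := by ring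
      rw [e] at hv
      exact ⟨v1, v2, v3, hv⟩

/-- The cell certificate: the cell around the integer point `X` has radius `< ρ`. -/
theorem cell (P : Par) (n : ℕ) (X : ℕ → Tri ℤ) (rows : List Row)
    (Js : List (List (Tri ℤ))) (os : List ℤ) (bas : List (Bool × ℤ))
    (S κ sω : ℤ) (Ws : List (List ℤ × List ℤ × List ℤ))
    (hN : 0 ≤ P.N) (hρ : 0 ≤ P.ρ) (hS : 0 < S) (hκ : 0 ≤ κ)
    (hgZ : gaugeZ P X = true) (hrow : rows.all (Row.ok P X n) = true)
    (hJs : rows.map (Row.J P X) = Js) (hbas : rows.map (Row.B P X) = bas)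
    (hlen : os.length = rows.length) (hWs : Ws.length = n)
    (hsω : sumAbs (comb os Js) = sω)
    (hOK : rowsOK S κ P.ρ Js os sω bas 0 Ws = true)
    (x : ℕ → Tri ℝ) (hz : ∀ k, k < n → (dev X x k).le P.ρ)
    (hx : ∀ r ∈ rows, r.Holds P x) :
    ∀ k, k < n → (dev X x k).lt P.ρ := by
  intro k hk
  obtain ⟨w1, w2, w3, h1, h2, h3⟩ := rowsOK_get S κ P.ρ Js os sω bas 0 Ws hOK k (by omega)
  rw [zero_add] at h1 h2 h3
  subst hsω
  have hJ : ∀ r ∈ Js, r.length ≤ n := by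
    rw [← hJs]
    intro r hr
    obtain ⟨r', hr', rfl⟩ := List.mem_map.mp hr
    apply length_rowJ
    have := List.all_eq_true.mp hrow r' hr'
    simp only [Row.ok, Bool.and_eq_true, decide_eq_true_eq] at this
    exact this.1
  have hg : Good bas (Js.map (fun r => ev r (dev X x))) := by
    rw [← hJs, ← hbas]
    exact good_map P X x n hN hρ hgZ hz rows hrow hx
  have hl1 : os.length = Js.length := by rw [← hJs]; simpa using hlen
  have hl2 : bas.length = Js.length := by rw [← hJs, ← hbas]; simp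
  have b1 := row_bound S κ P.ρ n hS hκ hρ Js hJ os bas hl1 hl2 (dev X x) hz hg k 0 hk w1 h1
  have b2 := row_bound S κ P.ρ n hS hκ hρ Js hJ os bas hl1 hl2 (dev X x) hz hg k 1 hk w2 h2
  have b3 := row_bound S κ P.ρ n hS hκ hρ Js hJ os bas hl1 hl2 (dev X x) hz hg k 2 hk w3 h3
  exact ⟨b1, b2, b3⟩

end Pool.Agent.Locked
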