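import Pool.Agent.Locked.Geom

set_option autoImplicit false

namespace Pool.Agent.Locked

open Set

def CT {α : Type} [TopologicalSpace α] (f : α → Tri ℝ) : Prop :=
  Continuous (fun t => (f t).x) ∧ Continuous (fun t => (f t).y) ∧ Continuous (fun t => (f t).z)

section
variable {α : Type} [TopologicalSpace α]

theorem CT.const (c : Tri ℝ) : CT (fun _ : α => c) :=
  ⟨continuous_const, continuous_const, continuous_const⟩

theorem CT.add {f g : α → Tri ℝ} (hf : CT f) (hg : CT g) : CT (fun t => Tri.add (f t) (g t)) :=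
  ⟨hf.1.add hg.1, hf.2.1.add hg.2.1, hf.2.2.add hg.2.2⟩

theorem CT.sub {f g : α → Tri ℝ} (hf : CT f) (hg : CT g) : CT (fun t => Tri.sub (f t) (g t)) :=
  ⟨hf.1.sub hg.1, hf.2.1.sub hg.2.1, hf.2.2.sub hg.2.2⟩

theorem CT.cross {f g : α → Tri ℝ} (hf : CT f) (hg : CT g) : CT (fun t => Tri.cross (f t) (g t)) :=
  ⟨(hf.2.1.mul hg.2.2).sub (hf.2.2.mul hg.2.1), (hf.2.2.mul hg.1).sub (hf.1.mul hg.2.2),
    (hf.1.mul hg.2.1).sub (hf.2.1.mul hg.1)⟩

theorem CT.dot {f g : α → Tri ℝ} (hf : CT f) (hg : CT g) :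
    Continuous (fun t => Tri.dot (f t) (g t)) :=
  ((hf.1.mul hg.1).add (hf.2.1.mul hg.2.1)).add (hf.2.2.mul hg.2.2)

theorem CT.psum {u : α → ℕ → Tri ℝ} (hu : ∀ j, CT (fun t => u t j)) (a k : ℕ) :
    CT (fun t => psum (u t) a k) := by
  induction k with
  | zero => exact CT.const _
  | succ k ih => exact ih.add (hu _)

theorem CT.tri {f : α → E} (hf : Continuous f) : CT (fun t => tri (f t)) := by
  refine ⟨?_, ?_, ?_⟩ <;> simp only [Locked.tri] <;> fun_prop

theorem CT.edge {γ : α → ℕ → E} (hγ : Continuous γ) (j : ℕ) : CT (fun t => edge (γ t) j) := by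
  apply CT.tri
  exact ((continuous_apply (j + 1)).comp hγ).sub ((continuous_apply j).comp hγ)

theorem CT.coords (P : Par) {γ : α → ℕ → E} (hγ : Continuous γ) (j : ℕ) :
    CT (fun t => coords P (γ t) j) := by
  have hA := CT.edge hγ P.A
  have hB := CT.edge hγ P.B
  have hj := CT.edge hγ j
  exact ⟨continuous_const.mul (hA.dot hj), continuous_const.mul (hB.dot hj),
    continuous_const.mul ((hA.cross hB).dot hj)⟩

theorem cont_cdet (P : Par) {γ : α → ℕ → E} (hγ : Continuous γ) (a L : ℕ) :
    Continuous (fun t => cdet (Locked.coords P (γ t)) a L) := by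
  unfold cdet
  exact ((CT.coords P hγ a).cross (CT.coords P hγ (a + 1 + L))).dot
    (CT.psum (fun j => CT.coords P hγ j) (a + 1) L)

theorem open_lt {f : α → Tri ℝ} (hf : CT f) (b : ℝ) : IsOpen {t | (f t).lt b} := by
  have h1 : IsOpen {t | |(f t).x| < b} := isOpen_lt hf.1.abs continuous_const
  have h2 : IsOpen {t | |(f t).y| < b} := isOpen_lt hf.2.1.abs continuous_const
  have h3 : IsOpen {t | |(f t).z| < b} := isOpen_lt hf.2.2.abs continuous_const
  exact h1.inter (h2.inter h3)

theorem closed_le {f : α → Tri ℝ} (hf : CT f) (b : ℝ) : IsClosed {t | (f t).le b} := by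
  have h1 : IsClosed {t | |(f t).x| ≤ b} := isClosed_le hf.1.abs continuous_const
  have h2 : IsClosed {t | |(f t).y| ≤ b} := isClosed_le hf.2.1.abs continuous_const
  have h3 : IsClosed {t | |(f t).z| ≤ b} := isClosed_le hf.2.2.abs continuous_const
  exact h1.inter (h2.inter h3)

end

def Row.Weak (x : ℕ → Tri ℝ) : Row → Prop
  | .C a L neg => 0 ≤ (sgn neg : ℝ) * cdet x a L
  | _ => True

def Row.Strict (x : ℕ → Tri ℝ) : Row → Prop
  | .C a L neg => 0 < (sgn neg : ℝ) * cdet x a L
  | _ => True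

/-- integer checks for the contact rows -/
def Row.cok (P : Par) (X : ℕ → Tri ℤ) (n : ℕ) : Row → Bool
  | .C a L _ => decide (1 ≤ L) && decide (a + 1 + L < n) && crossOK P X a L
  | .F j => decide (j < n)
  | .G _ => true

def Disj (n : ℕ) (q : ℕ → E) : Prop :=
  ∀ i j, i + 1 < j → j < n → Disjoint (segment ℝ (q i) (q (i + 1))) (segment ℝ (q j) (q (j + 1)))

theorem stays (P : Par) (n : ℕ) (X : ℕ → Tri ℤ) (rows : List Row)
    (hN : P.N ≠ 0) (hA : P.A < n) (hB : P.B < n)
    (hcc : |(X P.A).y| + P.ρ < P.N)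
    (hcell : ∀ x : ℕ → Tri ℝ, (∀ k, k < n → (dev X x k).le P.ρ) →
      (∀ r ∈ rows, r.Holds P x) → ∀ k, k < n → (dev X x k).lt P.ρ)
    (hcok : rows.all (Row.cok P X n) = true)
    (γ : ℝ → ℕ → E) (hγ : Continuous γ)
    (hs : ∀ t ∈ Icc (0 : ℝ) 1, Unit n (γ t) ∧ Disj n (γ t))
    (h0 : ∀ k, k < n → (dev X (coords P (γ 0)) k).le P.ρ)
    (h0' : ∀ r ∈ rows, r.Weak (coords P (γ 0))) :
    ∀ t ∈ Icc (0 : ℝ) 1, ∀ k, k < n → (dev X (coords P (γ t)) k).le P.ρ := by
  let δ : Icc (0 : ℝ) 1 → ℕ → E := fun t => γ t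
  have hδ : Continuous δ := hγ.comp continuous_subtype_val
  let U : Set (Icc (0 : ℝ) 1) := {t | (∀ k, k < n → (dev X (coords P (δ t)) k).lt P.ρ) ∧
    ∀ r ∈ rows, r.Strict (coords P (δ t))}
  let V : Set (Icc (0 : ℝ) 1) := {t | (∀ k, k < n → (dev X (coords P (δ t)) k).le P.ρ) ∧
    ∀ r ∈ rows, r.Weak (coords P (δ t))}
  have hdev : ∀ k, CT (fun t => dev X (coords P (δ t)) k) := fun k =>
    (CT.coords P hδ k).sub (CT.const _)
  have hUo : IsOpen U := by
    apply IsOpen.inter
    · have : {t | ∀ k, k < n → (dev X (coords P (δ t)) k).lt P.ρ} =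
          ⋂ k ∈ Finset.range n, {t | (dev X (coords P (δ t)) k).lt P.ρ} := by
        ext t; simp
      show IsOpen {t | ∀ k, k < n → (dev X (coords P (δ t)) k).lt P.ρ}
      rw [this]
      exact isOpen_biInter_finset (fun k _ => open_lt (hdev k) _)
    · have : {t | ∀ r ∈ rows, r.Strict (coords P (δ t))} =
          ⋂ r ∈ {r | r ∈ rows}, {t | Row.Strict (coords P (δ t)) r} := by
        ext t; simp
      show IsOpen {t | ∀ r ∈ rows, r.Strict (coords P (δ t))}
      rw [this]
      apply (List.finite_toSet rows).isOpen_biInter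
      intro r _
      rcases r with ⟨a, L, neg⟩ | j | k
      · exact isOpen_lt continuous_const (continuous_const.mul (cont_cdet P hδ a L))
      · simp [Row.Strict]
      · simp [Row.Strict]
  have hVc : IsClosed V := by
    apply IsClosed.inter
    · have : {t | ∀ k, k < n → (dev X (coords P (δ t)) k).le P.ρ} =
          ⋂ k ∈ Finset.range n, {t | (dev X (coords P (δ t)) k).le P.ρ} := by
        ext t; simp
      show IsClosed {t | ∀ k, k < n → (dev X (coords P (δ t)) k).le P.ρ}
      rw [this]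
      exact isClosed_biInter (fun k _ => closed_le (hdev k) _)
    · have : {t | ∀ r ∈ rows, r.Weak (coords P (δ t))} =
          ⋂ r ∈ {r | r ∈ rows}, {t | Row.Weak (coords P (δ t)) r} := by
        ext t; simp
      show IsClosed {t | ∀ r ∈ rows, r.Weak (coords P (δ t))}
      rw [this]
      apply isClosed_biInter
      intro r _
      rcases r with ⟨a, L, neg⟩ | j | k
      · exact isClosed_le continuous_const (continuous_const.mul (cont_cdet P hδ a L))
      · simp [Row.Weak]
      · simp [Row.Weak]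
  have hUV : U = V := by
    apply Set.Subset.antisymm
    · rintro t ⟨h1, h2⟩
      refine ⟨fun k hk => ?_, fun r hr => ?_⟩
      · obtain ⟨a, b, c⟩ := h1 k hk
        exact ⟨a.le, b.le, c.le⟩
      · have := h2 r hr
        rcases r with ⟨a, L, neg⟩ | j | k
        · exact le_of_lt this
        · trivial
        · trivial
    · rintro t ⟨h1, h2⟩
      obtain ⟨hu, hd⟩ := hs t.1 t.2
      refine ⟨hcell _ h1 (fun r hr => ?_), fun r hr => ?_⟩
      · have hw := h2 r hr
        have hc := List.all_eq_true.mp hcok r hr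
        rcases r with ⟨a, L, neg⟩ | j | k
        · exact hw
        · simp only [Row.cok, decide_eq_true_eq] at hc
          exact coords_norm P hu hA hB hc
        · exact coords_gauge P hu hA hB
      · have hw := h2 r hr
        have hc := List.all_eq_true.mp hcok r hr
        rcases r with ⟨a, L, neg⟩ | j | k
        · simp only [Row.cok, Bool.and_eq_true, decide_eq_true_eq] at hc
          obtain ⟨⟨hL, hb⟩, hcr⟩ := hc
          have hne : cdet (coords P (δ t)) a L ≠ 0 :=
            contact_ne P X n (δ t) hu hN hA hB h1 hcc a L hb hcr (hd a (a + 1 + L) (by omega) hb)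
          have hsg : (sgn neg : ℝ) ≠ 0 := by
            rcases neg with _ | _ <;> simp [sgn]
          simp only [Row.Weak] at hw
          simp only [Row.Strict]
          exact lt_of_le_of_ne hw (Ne.symm (mul_ne_zero hsg hne))
        · trivial
        · trivial
  have hclopen : IsClopen U := ⟨by rw [hUV]; exact hVc, hUo⟩
  have : PreconnectedSpace (Icc (0 : ℝ) 1) := Subtype.preconnectedSpace isPreconnected_Icc
  have hne : U.Nonempty := by
    rw [hUV]
    exact ⟨⟨0, by simp⟩, h0, h0'⟩
  have huniv := hclopen.eq_univ hne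
  intro t ht k hk
  have : (⟨t, ht⟩ : Icc (0 : ℝ) 1) ∈ V := by
    rw [← hUV, huniv]; trivial
  exact this.1 k hk

end Pool.Agent.Locked
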